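import Mathlib

/-!
Semidecidable predicates (by primitive recursive approximations) and their closure properties.
-/

namespace Pool.Agent.H36.LFI

open Encodable

section SD

variable {α β γ : Type} [Primcodable α] [Primcodable β] [Primcodable γ]

/-- Semidecidable predicates, by primitive recursive approximations. -/
def SD (p : α → Prop) : Prop :=
  ∃ q : α → ℕ → Prop, PrimrecRel q ∧ ∀ a, p a ↔ ∃ t, q a t

theorem approx {f : α →. β} (hf : Partrec f) :
    ∃ g : α → ℕ → Option β, Primrec₂ g ∧ ∀ a v, v ∈ f a ↔ ∃ t, g a t = some v := by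
  obtain ⟨c, hc⟩ := Nat.Partrec.Code.exists_code.1 hf
  refine ⟨fun a t => (Nat.Partrec.Code.evaln t c (encode a)).bind decode, ?_, ?_⟩
  · refine Primrec.option_bind ?_ (Primrec.decode.comp Primrec.snd).to₂
    exact Nat.Partrec.Code.primrec_evaln.comp
      (Primrec.pair (Primrec.pair Primrec.snd (Primrec.const c))
        (Primrec.encode.comp Primrec.fst))
  · intro a v
    have h1 : ∀ u, u ∈ c.eval (encode a) ↔ ∃ v ∈ f a, encode v = u := by
      intro u
      rw [hc]
      simp [Part.mem_map_iff]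
    constructor
    · intro hv
      have := (h1 (encode v)).2 ⟨v, hv, rfl⟩
      obtain ⟨t, ht⟩ := Nat.Partrec.Code.evaln_complete.1 this
      refine ⟨t, ?_⟩
      rw [Option.mem_def] at ht
      beta_reduce
      rw [ht]
      simp
    · rintro ⟨t, ht⟩
      rw [Option.bind_eq_some_iff] at ht
      obtain ⟨u, hu, huv⟩ := ht
      obtain ⟨v', hv', rfl⟩ := (h1 u).1 (Nat.Partrec.Code.evaln_sound (Option.mem_def.2 hu))
      rw [encodek, Option.some.injEq] at huv
      rwa [← huv]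

theorem SD.of_eq {p p' : α → Prop} (h : SD p) (e : ∀ a, p a ↔ p' a) : SD p' := by
  obtain ⟨q, hq, e'⟩ := h
  exact ⟨q, hq, fun a => (e a).symm.trans (e' a)⟩

theorem SD.comp {p : α → Prop} (h : SD p) {f : β → α} (hf : Primrec f) :
    SD (fun b => p (f b)) := by
  obtain ⟨q, hq, e⟩ := h
  exact ⟨fun b t => q (f b) t, hq.comp (hf.comp Primrec.fst) Primrec.snd, fun b => e (f b)⟩

theorem SD.of_primrec {p : α → Prop} (h : PrimrecPred p) : SD p :=
  ⟨fun a _ => p a, h.comp Primrec.fst, fun a => by simp⟩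

theorem SD.or {p p' : α → Prop} (h : SD p) (h' : SD p') : SD (fun a => p a ∨ p' a) := by
  obtain ⟨q, hq, e⟩ := h
  obtain ⟨q', hq', e'⟩ := h'
  refine ⟨fun a t => q a t ∨ q' a t, PrimrecPred.or hq hq', fun a => ?_⟩
  beta_reduce
  rw [e, e']
  constructor
  · rintro (⟨t, ht⟩ | ⟨t, ht⟩)
    · exact ⟨t, Or.inl ht⟩
    · exact ⟨t, Or.inr ht⟩
  · rintro ⟨t, ht | ht⟩
    · exact Or.inl ⟨t, ht⟩
    · exact Or.inr ⟨t, ht⟩

theorem SD.and {p p' : α → Prop} (h : SD p) (h' : SD p') : SD (fun a => p a ∧ p' a) := by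
  obtain ⟨q, hq, e⟩ := h
  obtain ⟨q', hq', e'⟩ := h'
  refine ⟨fun a t => q a t.unpair.1 ∧ q' a t.unpair.2, ?_, fun a => ?_⟩
  · refine PrimrecPred.and ?_ ?_
    · exact hq.comp Primrec.fst (Primrec.fst.comp (Primrec.unpair.comp Primrec.snd))
    · exact hq'.comp Primrec.fst (Primrec.snd.comp (Primrec.unpair.comp Primrec.snd))
  · beta_reduce
    rw [e, e']
    constructor
    · rintro ⟨⟨t, ht⟩, ⟨t', ht'⟩⟩
      exact ⟨Nat.pair t t', by simpa using ht, by simpa using ht'⟩
    · rintro ⟨t, ht, ht'⟩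
      exact ⟨⟨_, ht⟩, ⟨_, ht'⟩⟩

theorem SD.ex {p : α → β → Prop} (h : SD (fun x : α × β => p x.1 x.2)) :
    SD (fun a => ∃ b, p a b) := by
  obtain ⟨q, hq, e⟩ := h
  refine ⟨fun a t => ∃ b ∈ (decode (α := β) t.unpair.1).toList, q (a, b) t.unpair.2, ?_,
    fun a => ?_⟩
  · have h1 : PrimrecRel (fun (b : β) (x : α × ℕ) => q (x.1, b) x.2.unpair.2) := by
      refine hq.comp ?_ ?_
      · exact Primrec.pair (Primrec.fst.comp Primrec.snd) Primrec.fst
      · exact Primrec.snd.comp (Primrec.unpair.comp (Primrec.snd.comp Primrec.snd))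
    have h2 : Primrec (fun x : α × ℕ => (decode (α := β) x.2.unpair.1).toList) := by
      have : Primrec (fun o : Option β => o.toList) := by
        refine (Primrec.option_casesOn Primrec.id (Primrec.const [])
          ((Primrec.list_cons.comp Primrec.snd (Primrec.const [])).to₂)).of_eq ?_
        intro o
        cases o <;> rfl
      exact this.comp (Primrec.decode.comp (Primrec.fst.comp (Primrec.unpair.comp Primrec.snd)))
    exact h1.exists_mem_list.comp h2 Primrec.id
  · constructor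
    · rintro ⟨b, hb⟩
      obtain ⟨t, ht⟩ := (e (a, b)).1 hb
      exact ⟨Nat.pair (encode b) t, b, by simp, by simpa using ht⟩
    · rintro ⟨t, b, _, hb⟩
      exact ⟨b, (e (a, b)).2 ⟨_, hb⟩⟩

/-- Bounded universal quantification over a list. -/
theorem SD.ball {p : α → β → Prop} (h : SD (fun x : α × β => p x.1 x.2)) {l : α → List β}
    (hl : Primrec l) : SD (fun a => ∀ b ∈ l a, p a b) := by
  obtain ⟨q, hq, e⟩ := h
  refine ⟨fun a t => ∀ b ∈ l a, ∃ u ∈ List.range t, q (a, b) u, ?_, fun a => ?_⟩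
  · have h1 : PrimrecRel (fun (u : ℕ) (x : β × α × ℕ) => q (x.2.1, x.1) u) := by
      refine hq.comp ?_ Primrec.fst
      exact Primrec.pair (Primrec.fst.comp (Primrec.snd.comp Primrec.snd))
        (Primrec.fst.comp Primrec.snd)
    have h2 : PrimrecRel (fun (b : β) (x : α × ℕ) => ∃ u ∈ List.range x.2, q (x.1, b) u) :=
      h1.exists_mem_list.comp
        (Primrec.list_range.comp (Primrec.snd.comp Primrec.snd)) Primrec.id
    exact h2.forall_mem_list.comp (hl.comp Primrec.fst) Primrec.id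
  · constructor
    · intro hb
      have : ∀ l' : List β, (∀ b ∈ l', p a b) → ∃ t, ∀ b ∈ l', ∃ u ∈ List.range t, q (a, b) u := by
        intro l'
        induction l' with
        | nil => intro _; exact ⟨0, by simp⟩
        | cons b l' ih =>
          intro h
          obtain ⟨t, ht⟩ := ih (fun b hb => h b (List.mem_cons_of_mem _ hb))
          obtain ⟨u, hu⟩ := (e (a, b)).1 (h b List.mem_cons_self)
          refine ⟨max t (u + 1), fun b' hb' => ?_⟩
          rcases List.mem_cons.1 hb' with rfl | hb'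
          · exact ⟨u, List.mem_range.2 (by omega), hu⟩
          · obtain ⟨u', hu', hq'⟩ := ht b' hb'
            exact ⟨u', List.mem_range.2 (lt_of_lt_of_le (List.mem_range.1 hu') (le_max_left _ _)),
              hq'⟩
      exact this _ hb
    · rintro ⟨t, ht⟩ b hb
      obtain ⟨u, _, hu⟩ := ht b hb
      exact (e (a, b)).2 ⟨u, hu⟩

theorem SD.bex {p : α → β → Prop} (h : SD (fun x : α × β => p x.1 x.2)) {l : α → List β}
    (hl : Primrec l) : SD (fun a => ∃ b ∈ l a, p a b) := by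
  refine (SD.ex (p := fun a b => b ∈ l a ∧ p a b) (SD.and (SD.of_primrec ?_) h)).of_eq
    (fun a => by simp)
  have h1 : PrimrecRel (fun (b : β) (x : β) => b = x) := Primrec.eq
  have h2 : PrimrecRel (fun (L : List β) (x : β) => ∃ b ∈ L, b = x) := h1.exists_mem_list
  exact (h2.comp (hl.comp Primrec.fst) Primrec.snd).of_eq (fun x => by simp)

theorem SD.graph {f : α →. β} (hf : Partrec f) : SD (fun x : α × β => x.2 ∈ f x.1) := by
  obtain ⟨g, hg, e⟩ := approx hf
  refine ⟨fun x t => g x.1 t = some x.2, ?_, fun x => e x.1 x.2⟩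
  exact Primrec.eq.comp (hg.comp (Primrec.fst.comp Primrec.fst) Primrec.snd)
    (Primrec.option_some.comp (Primrec.snd.comp Primrec.fst))

theorem SD.dom {f : α →. β} (hf : Partrec f) : SD (fun a => (f a).Dom) := by
  refine (SD.ex (p := fun a b => b ∈ f a) (SD.graph hf)).of_eq (fun a => ?_)
  rw [Part.dom_iff_mem]

theorem SD.of_re {p : α → Prop} (h : REPred p) : SD p := by
  refine (SD.dom h).of_eq (fun a => ?_)
  simp [Part.assert]

theorem SD.to_re {p : α → Prop} (h : SD p) : REPred p := by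
  classical
  obtain ⟨q, hq, e⟩ := h
  have h1 : Partrec (fun a => (Nat.rfind fun n => Part.some (decide (q a n))).map fun _ => ()) := by
    refine Partrec.map ?_ (Computable.const ()).to₂
    refine Partrec.rfind ?_
    exact (PrimrecRel.decide hq).to_comp.partrec
  refine h1.of_eq (fun a => ?_)
  ext u
  simp only [Part.mem_map_iff, Part.mem_assert_iff, Part.mem_some_iff, exists_prop]
  constructor
  · rintro ⟨n, hn, _⟩
    refine ⟨(e a).2 ⟨n, ?_⟩, trivial⟩
    have := Nat.rfind_spec hn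
    simpa using this
  · rintro ⟨hp, _⟩
    have hdom : (Nat.rfind fun n => Part.some (decide (q a n))).Dom := by
      rw [Nat.rfind_dom]
      obtain ⟨n, hn⟩ := (e a).1 hp
      exact ⟨n, by simpa using hn, fun _ => trivial⟩
    exact ⟨_, Part.get_mem hdom, trivial⟩

theorem SD.of_computable {p : α → Prop} (h : ComputablePred p) : SD p :=
  SD.of_re h.to_re

theorem SD.of_computable_not {p : α → Prop} (h : ComputablePred p) : SD (fun a => ¬ p a) :=
  SD.of_re h.not.to_re

theorem SD.code {p : α → Prop} (h : SD p) : ∃ c : Nat.Partrec.Code, ∀ a,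
    p a ↔ ∃ t, (Nat.Partrec.Code.evaln t c (encode a)).isSome = true := by
  have h1 := h.to_re
  obtain ⟨c, hc⟩ := Nat.Partrec.Code.exists_code.1 h1
  refine ⟨c, fun a => ?_⟩
  have h2 : (c.eval (encode a)).Dom ↔ p a := by
    rw [hc]
    simp [Part.assert]
  rw [← h2, Part.dom_iff_mem]
  constructor
  · rintro ⟨u, hu⟩
    obtain ⟨t, ht⟩ := Nat.Partrec.Code.evaln_complete.1 hu
    rw [Option.mem_def] at ht
    exact ⟨t, by rw [ht]; rfl⟩
  · rintro ⟨t, ht⟩
    obtain ⟨u, hu⟩ := Option.isSome_iff_exists.1 ht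
    exact ⟨u, Nat.Partrec.Code.evaln_sound (Option.mem_def.2 hu)⟩

theorem PrimrecPred.isSome_evaln {c : α → Nat.Partrec.Code} {t : α → ℕ} {n : α → ℕ}
    (hc : Primrec c) (ht : Primrec t) (hn : Primrec n) :
    PrimrecPred (fun a => (Nat.Partrec.Code.evaln (t a) (c a) (n a)).isSome = true) := by
  refine Primrec.eq.comp ?_ (Primrec.const true)
  exact Primrec.option_isSome.comp (Nat.Partrec.Code.primrec_evaln.comp
    (Primrec.pair (Primrec.pair ht hc) hn))

/-- Predicates of the form `∃ b, A (a, b) ∧ ¬ B (a, b)` with `A`, `B` semidecidable. -/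
def Sig2 (p : α → Prop) : Prop :=
  ∃ A B : α × ℕ → Prop, SD A ∧ SD B ∧ ∀ a, p a ↔ ∃ n, A (a, n) ∧ ¬ B (a, n)

theorem Sig2.of_ex {p : α → Prop} {A B : α × β → Prop} (hA : SD A) (hB : SD B)
    (h : ∀ a, p a ↔ ∃ b, A (a, b) ∧ ¬ B (a, b)) : Sig2 p := by
  refine ⟨fun x => ∃ b : β, decode (α := β) x.2 = some b ∧ A (x.1, b),
    fun x => ∃ b : β, decode (α := β) x.2 = some b ∧ B (x.1, b), ?_, ?_, ?_⟩
  · refine SD.ex (p := fun (x : α × ℕ) (b : β) => decode (α := β) x.2 = some b ∧ A (x.1, b)) ?_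
    refine SD.and (SD.of_primrec ?_) ?_
    · exact Primrec.eq.comp (Primrec.decode.comp (Primrec.snd.comp Primrec.fst))
        (Primrec.option_some.comp Primrec.snd)
    · exact hA.comp (Primrec.pair (Primrec.fst.comp Primrec.fst) Primrec.snd)
  · refine SD.ex (p := fun (x : α × ℕ) (b : β) => decode (α := β) x.2 = some b ∧ B (x.1, b)) ?_
    refine SD.and (SD.of_primrec ?_) ?_
    · exact Primrec.eq.comp (Primrec.decode.comp (Primrec.snd.comp Primrec.fst))
        (Primrec.option_some.comp Primrec.snd)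
    · exact hB.comp (Primrec.pair (Primrec.fst.comp Primrec.fst) Primrec.snd)
  · intro a
    rw [h]
    constructor
    · rintro ⟨b, hA, hB⟩
      refine ⟨encode b, ⟨b, by simp, hA⟩, ?_⟩
      rintro ⟨b', hb', hB'⟩
      simp only [encodek, Option.some.injEq] at hb'
      subst hb'
      exact hB hB'
    · rintro ⟨n, ⟨b, hb, hA⟩, hB⟩
      exact ⟨b, hA, fun hB' => hB ⟨b, hb, hB'⟩⟩

theorem Sig2.or {p p' : α → Prop} (h : Sig2 p) (h' : Sig2 p') : Sig2 (fun a => p a ∨ p' a) := by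
  obtain ⟨A, B, hA, hB, e⟩ := h
  obtain ⟨A', B', hA', hB', e'⟩ := h'
  have hp : ∀ (C : α × ℕ → Prop) (b : Bool), SD C →
      SD (fun x : α × (Bool × ℕ) => x.2.1 = b ∧ C (x.1, x.2.2)) := by
    intro C b hC
    refine SD.and (SD.of_primrec ?_) ?_
    · exact Primrec.eq.comp (Primrec.fst.comp Primrec.snd) (Primrec.const b)
    · exact hC.comp (Primrec.pair Primrec.fst (Primrec.snd.comp Primrec.snd))
  refine Sig2.of_ex (β := Bool × ℕ)
    (A := fun x => (x.2.1 = true ∧ A (x.1, x.2.2)) ∨ (x.2.1 = false ∧ A' (x.1, x.2.2)))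
    (B := fun x => (x.2.1 = true ∧ B (x.1, x.2.2)) ∨ (x.2.1 = false ∧ B' (x.1, x.2.2)))
    ((hp A true hA).or (hp A' false hA')) ((hp B true hB).or (hp B' false hB')) ?_
  intro a
  rw [e, e']
  constructor
  · rintro (⟨n, h1, h2⟩ | ⟨n, h1, h2⟩)
    · exact ⟨(true, n), Or.inl ⟨rfl, h1⟩, by rintro (⟨_, h⟩ | ⟨h, _⟩); exacts [h2 h, by simp at h]⟩
    · exact ⟨(false, n), Or.inr ⟨rfl, h1⟩, by rintro (⟨h, _⟩ | ⟨_, h⟩); exacts [by simp at h, h2 h]⟩
  · rintro ⟨⟨b, n⟩, (⟨hb, h1⟩ | ⟨hb, h1⟩), h2⟩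
    · exact Or.inl ⟨n, h1, fun h => h2 (Or.inl ⟨hb, h⟩)⟩
    · exact Or.inr ⟨n, h1, fun h => h2 (Or.inr ⟨hb, h⟩)⟩

theorem Sig2.of_sd_not {p : α → Prop} (h : SD (fun a => ¬ p a)) : Sig2 p := by
  refine Sig2.of_ex (β := ℕ) (A := fun _ => True) (B := fun x => ¬ p x.1)
    ((SD.of_primrec (p := fun _ : α × ℕ => True) ?_)) (h.comp Primrec.fst) ?_
  · exact (Primrec.eq.comp (Primrec.const 0) (Primrec.const 0)).of_eq (fun _ => by simp)
  · intro a
    simp

/-- Conversion to the usual normal form. -/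
theorem Sig2.normal {p : α → Prop} (h : Sig2 p) : ∃ R : α → ℕ → ℕ → Prop,
    PrimrecPred (fun x : α × ℕ × ℕ => R x.1 x.2.1 x.2.2) ∧ ∀ a, p a ↔ ∃ x, ∀ y, R a x y := by
  obtain ⟨A, B, ⟨qA, hA, eA⟩, ⟨qB, hB, eB⟩, e⟩ := h
  refine ⟨fun a x y => qA (a, x.unpair.1) x.unpair.2 ∧ ¬ qB (a, x.unpair.1) y, ?_, ?_⟩
  · have h1 : Primrec (fun x : α × ℕ × ℕ => (x.1, x.2.1.unpair.1)) :=
      Primrec.pair Primrec.fst (Primrec.fst.comp (Primrec.unpair.comp
        (Primrec.fst.comp Primrec.snd)))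
    refine PrimrecPred.and ?_ (PrimrecPred.not ?_)
    · exact hA.comp h1 (Primrec.snd.comp (Primrec.unpair.comp (Primrec.fst.comp Primrec.snd)))
    · exact hB.comp h1 (Primrec.snd.comp Primrec.snd)
  · intro a
    rw [e]
    constructor
    · rintro ⟨n, h1, h2⟩
      obtain ⟨t, ht⟩ := (eA _).1 h1
      refine ⟨Nat.pair n t, fun y => ?_⟩
      simp only [Nat.unpair_pair]
      exact ⟨ht, fun hy => h2 ((eB _).2 ⟨y, hy⟩)⟩
    · rintro ⟨x, hx⟩
      refine ⟨x.unpair.1, (eA _).2 ⟨_, (hx 0).1⟩, fun hB' => ?_⟩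
      obtain ⟨y, hy⟩ := (eB _).1 hB'
      exact (hx y).2 hy

end SD

end Pool.Agent.H36.LFI
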