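import Pool.Agent.H36.LFI.Defs
import Pool.Agent.H36.LFI.Base

/-!
Oracle computations through monotone functionals on finite strings.
-/

namespace Pool.Agent.H36.LFI

theorem ini_length (y : ℕ → Bool) (n : ℕ) : (ini y n).length = n := by simp [ini]

theorem ini_getElem? (y : ℕ → Bool) (n k : ℕ) :
    (ini y n)[k]? = if k < n then some (y k) else none := by
  unfold ini
  by_cases h : k < n
  · simp [h]
  · simp [h]

theorem ini_add (y : ℕ → Bool) (n m : ℕ) : ∃ ρ, ini y (n + m) = ini y n ++ ρ := by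
  refine ⟨(List.range m).map (fun k => y (n + k)), ?_⟩
  unfold ini
  rw [List.range_add, List.map_append, List.map_map]
  rfl

theorem ini_le (y : ℕ → Bool) {n m : ℕ} (h : n ≤ m) : ∃ ρ, ini y m = ini y n ++ ρ := by
  obtain ⟨k, rfl⟩ := Nat.exists_eq_add_of_le h
  exact ini_add y n k

theorem ini_prefix (y : ℕ → Bool) {n m : ℕ} (h : n ≤ m) : ini y n <+: ini y m := by
  obtain ⟨ρ, hρ⟩ := ini_le y h
  exact ⟨ρ, hρ.symm⟩

/-- The part of the oracle that is determined by a string. -/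
def orc (τ : Str) (q : ℕ) : Part ℕ := ((τ[q]? : Option Bool) : Part Bool).map Bool.toNat

theorem partrec_orc : Partrec₂ orc := by
  unfold orc
  refine Partrec.map ?_ ?_
  · exact (Primrec.list_getElem?.comp Primrec.fst Primrec.snd).to_comp.ofOption
  · exact ((Primrec.dom_finite Bool.toNat).comp Primrec.snd).to_comp

/-- Monotone functionals. -/
def Mono (Ψ : Str → ℕ →. ℕ) : Prop := ∀ τ ρ n v, v ∈ Ψ τ n → v ∈ Ψ (τ ++ ρ) n

theorem Mono.pfx {Ψ : Str → ℕ →. ℕ} (h : Mono Ψ) {σ τ : Str} (hs : σ <+: τ) {n v : ℕ}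
    (hv : v ∈ Ψ σ n) : v ∈ Ψ τ n := by
  obtain ⟨ρ, rfl⟩ := hs
  exact h _ _ _ _ hv

theorem mono_ini {Ψ : Str → ℕ →. ℕ} (h : Mono Ψ) (y : ℕ → Bool) {k l : ℕ} (hkl : k ≤ l)
    {n v : ℕ} (hv : v ∈ Ψ (ini y k) n) : v ∈ Ψ (ini y l) n :=
  h.pfx (ini_prefix y hkl) hv

theorem exists_functional (y : ℕ → Bool) {f : ℕ →. ℕ} (hf : Nat.RecursiveIn {chi y} f) :
    ∃ Ψ : Str → ℕ →. ℕ, Partrec₂ Ψ ∧ Mono Ψ ∧ ∀ n v, v ∈ f n ↔ ∃ k, v ∈ Ψ (ini y k) n := by
  induction hf with
  | zero =>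
    refine ⟨fun _ _ => Part.some 0, (Computable.const 0).partrec, fun _ _ _ _ h => h, ?_⟩
    intro n v
    exact ⟨fun h => ⟨0, h⟩, fun ⟨_, h⟩ => h⟩
  | succ =>
    refine ⟨fun _ n => Part.some n.succ, (Computable.succ.comp Computable.snd).partrec,
      fun _ _ _ _ h => h, ?_⟩
    intro n v
    exact ⟨fun h => ⟨0, h⟩, fun ⟨_, h⟩ => h⟩
  | left =>
    refine ⟨fun _ n => Part.some n.unpair.1,
      (Computable.fst.comp (Computable.unpair.comp Computable.snd)).partrec,
      fun _ _ _ _ h => h, ?_⟩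
    intro n v
    exact ⟨fun h => ⟨0, h⟩, fun ⟨_, h⟩ => h⟩
  | right =>
    refine ⟨fun _ n => Part.some n.unpair.2,
      (Computable.snd.comp (Computable.unpair.comp Computable.snd)).partrec,
      fun _ _ _ _ h => h, ?_⟩
    intro n v
    exact ⟨fun h => ⟨0, h⟩, fun ⟨_, h⟩ => h⟩
  | oracle g hg =>
    rw [Set.mem_singleton_iff] at hg
    subst hg
    refine ⟨orc, partrec_orc, ?_, ?_⟩
    · intro τ ρ n v hv
      unfold orc at hv ⊢
      simp only [Part.mem_map_iff, Part.mem_coe] at hv ⊢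
      obtain ⟨a, ha, hv⟩ := hv
      refine ⟨a, ?_, hv⟩
      rw [Option.mem_def] at ha ⊢
      rw [List.getElem?_append_left]
      · exact ha
      · exact (List.getElem?_eq_some_iff.1 ha).1
    · intro n v
      have key : ∀ k, n < k → ((v ∈ chi y n) ↔ v ∈ orc (ini y k) n) := by
        intro k hk
        unfold orc chi
        rw [ini_getElem?, if_pos hk]
        simp
      constructor
      · intro h
        exact ⟨n + 1, (key _ (Nat.lt_succ_self _)).1 h⟩
      · rintro ⟨k, hk⟩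
        by_cases hlt : n < k
        · exact (key k hlt).2 hk
        · exfalso
          unfold orc at hk
          rw [ini_getElem?, if_neg hlt] at hk
          simp at hk
  | @pair f h hf hh ihf ihh =>
    obtain ⟨Ψ₁, p1, m1, e1⟩ := ihf
    obtain ⟨Ψ₂, p2, m2, e2⟩ := ihh
    refine ⟨fun τ n => (Ψ₁ τ n).bind fun a => (Ψ₂ τ n).map fun b => Nat.pair a b, ?_, ?_, ?_⟩
    · refine Partrec.bind p1 ?_
      refine Partrec.map (p2.comp (Computable.fst.comp Computable.fst)
        (Computable.snd.comp Computable.fst)) ?_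
      exact (Primrec₂.natPair.comp (Primrec.snd.comp Primrec.fst) Primrec.snd).to_comp
    · intro τ ρ n v hv
      simp only [Part.mem_bind_iff, Part.mem_map_iff] at hv ⊢
      obtain ⟨a, ha, b, hb, hv⟩ := hv
      exact ⟨a, m1 _ _ _ _ ha, b, m2 _ _ _ _ hb, hv⟩
    · intro n v
      have : v ∈ (Nat.pair <$> f n <*> h n) ↔ ∃ a ∈ f n, ∃ b ∈ h n, Nat.pair a b = v := by
        simp [Seq.seq]
      rw [this]
      simp only [Part.mem_bind_iff, Part.mem_map_iff]
      constructor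
      · rintro ⟨a, ha, b, hb, hv⟩
        obtain ⟨k, hk⟩ := (e1 _ _).1 ha
        obtain ⟨l, hl⟩ := (e2 _ _).1 hb
        exact ⟨max k l, a, mono_ini m1 y (le_max_left _ _) hk, b,
          mono_ini m2 y (le_max_right _ _) hl, hv⟩
      · rintro ⟨k, a, ha, b, hb, hv⟩
        exact ⟨a, (e1 _ _).2 ⟨k, ha⟩, b, (e2 _ _).2 ⟨k, hb⟩, hv⟩
  | @comp f h hf hh ihf ihh =>
    obtain ⟨Ψ₁, p1, m1, e1⟩ := ihf
    obtain ⟨Ψ₂, p2, m2, e2⟩ := ihh
    refine ⟨fun τ n => (Ψ₂ τ n).bind fun a => Ψ₁ τ a, ?_, ?_, ?_⟩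
    · exact Partrec.bind p2 (p1.comp (Computable.fst.comp Computable.fst) Computable.snd)
    · intro τ ρ n v hv
      simp only [Part.mem_bind_iff] at hv ⊢
      obtain ⟨a, ha, hv⟩ := hv
      exact ⟨a, m2 _ _ _ _ ha, m1 _ _ _ _ hv⟩
    · intro n v
      have : v ∈ (h n >>= f) ↔ ∃ a ∈ h n, v ∈ f a := by
        simp
      rw [this]
      simp only [Part.mem_bind_iff]
      constructor
      · rintro ⟨a, ha, hv⟩
        obtain ⟨k, hk⟩ := (e2 _ _).1 ha
        obtain ⟨l, hl⟩ := (e1 _ _).1 hv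
        exact ⟨max k l, a, mono_ini m2 y (le_max_left _ _) hk,
          mono_ini m1 y (le_max_right _ _) hl⟩
      · rintro ⟨k, a, ha, hv⟩
        exact ⟨a, (e2 _ _).2 ⟨k, ha⟩, (e1 _ _).2 ⟨k, hv⟩⟩
  | @prec f h hf hh ihf ihh =>
    obtain ⟨Ψ₁, p1, m1, e1⟩ := ihf
    obtain ⟨Ψ₂, p2, m2, e2⟩ := ihh
    let G : Str → ℕ → ℕ → Part ℕ := fun τ a n =>
      Nat.rec (motive := fun _ => Part ℕ) (Ψ₁ τ a)
        (fun y IH => IH.bind fun i => Ψ₂ τ (Nat.pair a (Nat.pair y i))) n
    let G' : ℕ → ℕ → Part ℕ := fun a n =>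
      Nat.rec (motive := fun _ => Part ℕ) (f a)
        (fun y IH => IH.bind fun i => h (Nat.pair a (Nat.pair y i))) n
    have hG : ∀ τ ρ a n v, v ∈ G τ a n → v ∈ G (τ ++ ρ) a n := by
      intro τ ρ a n
      induction n with
      | zero => intro v hv; exact m1 _ _ _ _ hv
      | succ n ih =>
        intro v hv
        obtain ⟨i, hi, hv⟩ := Part.mem_bind_iff.1 hv
        exact Part.mem_bind_iff.2 ⟨i, ih _ hi, m2 _ _ _ _ hv⟩
    have hGp : ∀ {k l : ℕ}, k ≤ l → ∀ {a n v}, v ∈ G (ini y k) a n → v ∈ G (ini y l) a n := by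
      intro k l hkl a n v hv
      obtain ⟨ρ, hρ⟩ := ini_le y hkl
      rw [hρ]
      exact hG _ _ _ _ _ hv
    have hGG : ∀ a n v, v ∈ G' a n ↔ ∃ k, v ∈ G (ini y k) a n := by
      intro a n
      induction n with
      | zero => intro v; exact e1 _ _
      | succ n ih =>
        intro v
        constructor
        · intro hv
          obtain ⟨i, hi, hv⟩ := Part.mem_bind_iff.1 hv
          obtain ⟨k, hk⟩ := (ih _).1 hi
          obtain ⟨l, hl⟩ := (e2 _ _).1 hv
          exact ⟨max k l, Part.mem_bind_iff.2 ⟨i, hGp (le_max_left _ _) hk,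
            mono_ini m2 y (le_max_right _ _) hl⟩⟩
        · rintro ⟨k, hv⟩
          obtain ⟨i, hi, hv⟩ := Part.mem_bind_iff.1 hv
          exact Part.mem_bind_iff.2 ⟨i, (ih _).2 ⟨k, hi⟩, (e2 _ _).2 ⟨k, hv⟩⟩
    refine ⟨fun τ p => G τ p.unpair.1 p.unpair.2, ?_, ?_, ?_⟩
    · refine Partrec.nat_rec (f := fun q : Str × ℕ => q.2.unpair.2)
        (g := fun q : Str × ℕ => Ψ₁ q.1 q.2.unpair.1)
        (h := fun (q : Str × ℕ) (r : ℕ × ℕ) =>
          Ψ₂ q.1 (Nat.pair q.2.unpair.1 (Nat.pair r.1 r.2))) ?_ ?_ ?_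
      · exact Computable.snd.comp (Computable.unpair.comp Computable.snd)
      · exact p1.comp Computable.fst (Computable.fst.comp (Computable.unpair.comp Computable.snd))
      · refine p2.comp (Computable.fst.comp Computable.fst) ?_
        apply Primrec.to_comp
        refine Primrec₂.natPair.comp ?_ (Primrec₂.natPair.comp ?_ ?_)
        · exact Primrec.fst.comp (Primrec.unpair.comp (Primrec.snd.comp Primrec.fst))
        · exact Primrec.fst.comp Primrec.snd
        · exact Primrec.snd.comp Primrec.snd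
    · intro τ ρ n v hv
      exact hG _ _ _ _ _ hv
    · intro n v
      exact hGG n.unpair.1 n.unpair.2 v
  | @rfind f hf ihf =>
    obtain ⟨Ψ₁, p1, m1, e1⟩ := ihf
    refine ⟨fun τ a => Nat.rfind fun n => (Ψ₁ τ (Nat.pair a n)).map (fun m => decide (m = 0)),
      ?_, ?_, ?_⟩
    · refine Partrec.rfind (p := fun (q : Str × ℕ) (n : ℕ) =>
        (Ψ₁ q.1 (Nat.pair q.2 n)).map (fun m => decide (m = 0))) ?_
      refine Partrec.map ?_ ?_
      · refine p1.comp (Computable.fst.comp Computable.fst) ?_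
        apply Primrec.to_comp
        exact Primrec₂.natPair.comp (Primrec.snd.comp Primrec.fst) Primrec.snd
      · apply Primrec.to_comp
        exact (Primrec.eq.comp Primrec.snd (Primrec.const 0)).decide
    · intro τ ρ n v hv
      simp only [Nat.mem_rfind, Part.mem_map_iff] at hv ⊢
      obtain ⟨⟨a, ha, ha'⟩, h2⟩ := hv
      refine ⟨⟨a, m1 _ _ _ _ ha, ha'⟩, ?_⟩
      intro m hm
      obtain ⟨b, hb, hb'⟩ := h2 hm
      exact ⟨b, m1 _ _ _ _ hb, hb'⟩
    · intro n v
      have : (v ∈ Nat.rfind fun m => (fun m => decide (m = 0)) <$> f (Nat.pair n m)) ↔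
          (0 ∈ f (Nat.pair n v) ∧ ∀ m < v, ∃ b ∈ f (Nat.pair n m), b ≠ 0) := by
        simp [Nat.mem_rfind]
      have e : (v ∈ Nat.rfind fun m => (fun m => decide (m = 0)) <$> f (Nat.pair n m)) ↔
          ∃ k, v ∈ Nat.rfind fun m => (Ψ₁ (ini y k) (Nat.pair n m)).map
            (fun m => decide (m = 0)) := by
        rw [this]
        have this2 : ∀ k, (v ∈ Nat.rfind fun m => (Ψ₁ (ini y k) (Nat.pair n m)).map
            (fun m => decide (m = 0))) ↔
            (0 ∈ Ψ₁ (ini y k) (Nat.pair n v) ∧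
              ∀ m < v, ∃ b ∈ Ψ₁ (ini y k) (Nat.pair n m), b ≠ 0) := by
          intro k
          simp [Nat.mem_rfind]
        simp only [this2]
        constructor
        · rintro ⟨h1, h2⟩
          obtain ⟨k, hk⟩ := (e1 _ _).1 h1
          have h3 : ∃ K, ∀ m < v, ∃ b ∈ Ψ₁ (ini y K) (Nat.pair n m), b ≠ 0 := by
            clear this this2 h1 hk
            induction v with
            | zero => exact ⟨0, fun m hm => absurd hm (Nat.not_lt_zero _)⟩
            | succ v ih =>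
              obtain ⟨K, hK⟩ := ih (fun m hm => h2 m (by omega))
              obtain ⟨b, hb, hb0⟩ := h2 v (Nat.lt_succ_self _)
              obtain ⟨l, hl⟩ := (e1 _ _).1 hb
              refine ⟨max K l, fun m hm => ?_⟩
              rcases Nat.lt_succ_iff_lt_or_eq.1 hm with h | h
              · obtain ⟨b', hb', hb0'⟩ := hK m h
                exact ⟨b', mono_ini m1 y (le_max_left _ _) hb', hb0'⟩
              · subst h
                exact ⟨b, mono_ini m1 y (le_max_right _ _) hl, hb0⟩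
          obtain ⟨K, hK⟩ := h3
          refine ⟨max k K, mono_ini m1 y (le_max_left _ _) hk, fun m hm => ?_⟩
          obtain ⟨b, hb, hb0⟩ := hK m hm
          exact ⟨b, mono_ini m1 y (le_max_right _ _) hb, hb0⟩
        · rintro ⟨k, h1, h2⟩
          refine ⟨(e1 _ _).2 ⟨k, h1⟩, fun m hm => ?_⟩
          obtain ⟨b, hb, hb0⟩ := h2 m hm
          exact ⟨b, (e1 _ _).2 ⟨k, hb⟩, hb0⟩
      exact e

theorem le_deg_iff {f : ℕ →. ℕ} {y : ℕ → Bool} : degF f ≤ deg y ↔ Nat.RecursiveIn {chi y} f := by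
  rw [← RecursiveIn.iff_nat]
  exact Iff.rfl

end Pool.Agent.H36.LFI
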