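import Pool.Agent.H36.LFI.Construction

/-!
Strings that are not covered by `SS`, and the generic path.
-/

namespace Pool.Agent.H36.LFI

open Encodable
open Nat.Partrec (Code)

/-! ### The witnesses -/

theorem exists_wt (s : ℕ) : ∃ w : Wit, PW (state s) s w ∧ state (s + 1) = newSt (state s) s w := by
  obtain ⟨w, hw, hP⟩ := wn_spec (state s) s
  refine ⟨w, hP, ?_⟩
  have hw' : decode (α := Wit) (wn (state s) s) = some w := by
    simpa using hw
  show newStN (state s) s (wn (state s) s) = _
  unfold newStN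
  rw [hw']
  rfl

/-- The witness used at stage `s`. -/
noncomputable def wt (s : ℕ) : Wit := Classical.choose (exists_wt s)

theorem wt_PW (s : ℕ) : PW (state s) s (wt s) := (Classical.choose_spec (exists_wt s)).1

theorem state_succ (s : ℕ) : state (s + 1) = newSt (state s) s (wt s) :=
  (Classical.choose_spec (exists_wt s)).2

theorem mem_state_snd {s : ℕ} {f : Str} (h : f ∈ (state s).2) :
    ∃ s' < s, (wt s').2.1 = 2 ∧ (wt s').2.2.2.1 = f := by
  induction s with
  | zero => simp [state] at h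
  | succ s ih =>
    rw [state_succ] at h
    simp only [newSt, List.mem_append] at h
    rcases h with h | h
    · obtain ⟨s', hs', h⟩ := ih h
      exact ⟨s', by omega, h⟩
    · split_ifs at h with hk
      · simp only [List.mem_cons, List.not_mem_nil, or_false] at h
        exact ⟨s, by omega, hk, h.symm⟩
      · simp at h

theorem mem_snd_of_lt {s s' : ℕ} (hs : s' < s) (hk : (wt s').2.1 = 2) :
    (wt s').2.2.2.1 ∈ (state s).2 := by
  induction s with
  | zero => omega
  | succ s ih =>
    rw [state_succ]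
    simp only [newSt, List.mem_append]
    rcases Nat.lt_succ_iff_lt_or_eq.1 hs with h | h
    · exact Or.inl (ih h)
    · subst h
      right
      simp [hk]

theorem mem_SS_iff_wt {f : Str} : f ∈ SS ↔ ∃ s, (wt s).2.1 = 2 ∧ (wt s).2.2.2.1 = f := by
  constructor
  · rintro ⟨s, hs⟩
    obtain ⟨s', _, h⟩ := mem_state_snd hs
    exact ⟨s', h⟩
  · rintro ⟨s, hk, rfl⟩
    exact ⟨s + 1, mem_snd_of_lt (Nat.lt_succ_self s) hk⟩

/-- The processes respected at stage `s`. -/
noncomputable def JJ (s : ℕ) : List (Code × Str) := newJ (state s).1 (dat s).1 (wt s).1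

theorem state_fst_succ (s : ℕ) : (state (s + 1)).1 = JJ s := by
  rw [state_succ]
  rfl

theorem JJ_mono {s s' : ℕ} (h : s ≤ s') {p : Code × Str} (hp : p ∈ JJ s) : p ∈ JJ s' := by
  induction s' with
  | zero =>
    obtain rfl : s = 0 := by omega
    exact hp
  | succ s' ih =>
    rcases Nat.le_succ_iff.1 h with h | h
    · have := ih h
      unfold JJ newJ
      rw [state_fst_succ]
      exact List.mem_append_left _ this
    · subst h
      exact hp

theorem wt_two {s : ℕ} (hk : (wt s).2.1 = 2) {p : Code × Str} (hp : p ∈ JJ s) :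
    ¬ Below p ((wt s).2.2.2.1.take ((wt s).2.2.2.1.length - s)) := by
  have h := (wt_PW s).2
  unfold WitOK at h
  rcases h with h | h | h | h
  · rw [hk] at h; exact absurd h.1 (by norm_num)
  · rw [hk] at h; exact absurd h.1 (by norm_num)
  · exact h.2.2.2 p hp
  · rw [hk] at h; exact absurd h.1 (by norm_num)

/-! ### Initial segments -/

/-- `σ` is an initial segment of `X`. -/
def Pre (σ : Str) (X : ℕ → Bool) : Prop := ini X σ.length = σ

theorem pre_ini (X : ℕ → Bool) (n : ℕ) : Pre (ini X n) X := by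
  unfold Pre
  rw [ini_length]

theorem ini_eq_take (X : ℕ → Bool) {m n : ℕ} (h : m ≤ n) : ini X m = (ini X n).take m := by
  unfold ini
  rw [← List.map_take, List.take_range, min_eq_left h]

theorem Pre.mono {σ τ : Str} {X : ℕ → Bool} (h : Pre σ X) (hs : τ <+: σ) : Pre τ X := by
  unfold Pre at *
  rw [ini_eq_take X hs.length_le, h]
  exact (List.prefix_iff_eq_take.1 hs).symm

theorem Pre.compat {σ τ : Str} {X : ℕ → Bool} (h : Pre σ X) (h' : Pre τ X) : Compat σ τ := by
  have h1 : σ <+: ini X (max σ.length τ.length) := by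
    have := ini_prefix X (le_max_left σ.length τ.length)
    rwa [h] at this
  have h2 : τ <+: ini X (max σ.length τ.length) := by
    have := ini_prefix X (le_max_right σ.length τ.length)
    rwa [h'] at this
  exact compat_of_prefix h1 h2

theorem Pre.getElem? {σ : Str} {X : ℕ → Bool} (h : Pre σ X) {i : ℕ} (hi : i < σ.length) :
    σ[i]? = some (X i) := by
  unfold Pre at h
  have := ini_getElem? X σ.length i
  rw [h, if_pos hi] at this
  exact this

theorem pre_of_getElem? {σ : Str} {X : ℕ → Bool} (h : ∀ i < σ.length, σ[i]? = some (X i)) :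
    Pre σ X := by
  unfold Pre
  apply List.ext_getElem?
  intro i
  rw [ini_getElem?]
  by_cases hi : i < σ.length
  · rw [if_pos hi, h i hi]
  · rw [if_neg hi]
    symm
    rw [List.getElem?_eq_none_iff]
    omega

/-- `σ` is not covered by `SS`. -/
def Alive (σ : Str) : Prop := ∃ X, Pre σ X ∧ ∀ f ∈ SS, ¬ Pre f X

theorem Alive.mono {σ τ : Str} (h : Alive σ) (hs : τ <+: σ) : Alive τ := by
  obtain ⟨X, h1, h2⟩ := h
  exact ⟨X, h1.mono hs, h2⟩

theorem Alive.extend {σ : Str} (h : Alive σ) (n : ℕ) : ∃ τ, σ <+: τ ∧ n ≤ τ.length ∧ Alive τ := by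
  obtain ⟨X, h1, h2⟩ := h
  refine ⟨ini X (max n σ.length), ?_, ?_, X, pre_ini X _, h2⟩
  · have := ini_prefix X (le_max_right n σ.length)
    rwa [h1] at this
  · rw [ini_length]
    exact le_max_left _ _

theorem JJ_nonempty (s : ℕ) : ∃ p, p ∈ JJ s := by
  have h := (wt_PW 0).1
  unfold StartOK at h
  rcases h with ⟨τ, hτ, _, _⟩ | ⟨_, h⟩
  · refine ⟨((dat 0).1, τ), JJ_mono (Nat.zero_le s) ?_⟩
    unfold JJ newJ
    refine List.mem_append_right _ ?_
    exact List.mem_map.2 ⟨τ, hτ, rfl⟩
  · obtain ⟨f, hf, _⟩ := h _ List.prefix_rfl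
    simp [state] at hf

theorem length_gt {s : ℕ} (hk : (wt s).2.1 = 2) : s < (wt s).2.2.2.1.length := by
  by_contra hc
  push Not at hc
  obtain ⟨p, hp⟩ := JJ_nonempty s
  apply wt_two hk hp
  have : (wt s).2.2.2.1.length - s = 0 := by omega
  rw [this, List.take_zero]
  exact ⟨p.2, ⟨0, Part.mem_some _⟩, List.nil_prefix⟩

theorem alive_nil : Alive [] := by
  refine ⟨fun i => !((wt i).2.2.2.1.getD i false), rfl, ?_⟩
  intro f hf hpre
  obtain ⟨s, hk, rfl⟩ := mem_SS_iff_wt.1 hf
  have hl := length_gt hk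
  have h1 := hpre.getElem? hl
  rw [List.getD_eq_getElem?_getD, h1] at h1
  simp at h1

/-- The strings of a process started in the construction are not covered. -/
theorem alive_run {s : ℕ} {τ₀ x : Str} (ho : τ₀ ∈ (wt s).1.toList)
    (hτ : ∀ f ∈ (state s).2, ¬ Compat τ₀ f) (hx : Run ((dat s).1, τ₀) x) : Alive x := by
  set p : Code × Str := ((dat s).1, τ₀) with hp
  have hpJ : ∀ s', s ≤ s' → p ∈ JJ s' := by
    intro s' hs'
    refine JJ_mono hs' ?_
    unfold JJ newJ
    exact List.mem_append_right _ (List.mem_map.2 ⟨τ₀, ho, rfl⟩)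
  set X : ℕ → Bool := fun i => if i < x.length then x.getD i false else
    !((wt (i - x.length)).2.2.2.1.getD i false) with hX
  have hpx : Pre x X := by
    apply pre_of_getElem?
    intro i hi
    simp only [hX, if_pos hi]
    rw [List.getD_eq_getElem?_getD]
    rw [List.getElem?_eq_getElem hi]
    rfl
  refine ⟨X, hpx, ?_⟩
  intro f hf hpre
  obtain ⟨s', hk, hfs⟩ := mem_SS_iff_wt.1 hf
  rcases lt_or_ge s' s with hlt | hge
  · have hmem := mem_snd_of_lt hlt hk
    rw [hfs] at hmem
    exact hτ f hmem ((hpx.mono (base_prefix hx)).compat hpre)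
  · have hnb := wt_two hk (hpJ s' hge)
    rw [hfs] at hnb
    have hlen : x.length + s' < f.length := by
      by_contra hc
      push Not at hc
      apply hnb
      refine ⟨x, hx, ?_⟩
      have h1 : Pre (f.take (f.length - s')) X := hpre.mono (List.take_prefix _ _)
      refine (h1.compat hpx).pfx ?_
      rw [List.length_take]
      omega
    have h1 := hpre.getElem? hlen
    simp only [hX] at h1
    rw [if_neg (by omega)] at h1
    have h2 : x.length + s' - x.length = s' := by omega
    rw [h2, hfs, List.getD_eq_getElem?_getD, List.getElem?_eq_getElem hlen] at h1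
    simp at h1

theorem ch_dom_mono {p : Code × Str} {k m : ℕ} (h : (ch p (k + m)).Dom) : (ch p k).Dom := by
  induction m with
  | zero => exact h
  | succ m ih => exact ih (ch_dom_of_succ h)

theorem dat_surj (d : Dat) : ∃ s, dat s = d := ⟨encode d, by unfold dat; rw [encodek]; rfl⟩

theorem alive_handle {α : Str} (hα : Alive α) (e : Code) :
    (∃ τ₀, ∀ k, (ch (e, τ₀) k).Dom) ∨
    ∃ τ₀ k x, α <+: x ∧ x ∈ ch (e, τ₀) k ∧ ¬ (nxt e k x).Dom ∧ Alive x := by
  obtain ⟨s, hs⟩ := dat_surj (e, α, default, default)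
  have h := (wt_PW s).1
  unfold StartOK at h
  rw [hs] at h
  rcases h with ⟨τ₀, ho, hατ, hτ⟩ | ⟨_, h⟩
  · by_cases htot : ∀ k, (ch (e, τ₀) k).Dom
    · exact Or.inl ⟨τ₀, htot⟩
    · right
      push Not at htot
      classical
      obtain ⟨k, hk, hmin⟩ : ∃ k, ¬ (ch (e, τ₀) k).Dom ∧ ∀ m < k, (ch (e, τ₀) m).Dom := by
        refine ⟨Nat.find htot, Nat.find_spec htot, fun m hm => ?_⟩
        exact not_not.1 (Nat.find_min htot hm)
      cases k with
      | zero => exact absurd (by rw [ch_zero]; trivial) hk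
      | succ k =>
        have hdom := hmin k (Nat.lt_succ_self k)
        obtain ⟨x, hx⟩ := Part.dom_iff_mem.1 hdom
        have hn : ¬ (nxt e k x).Dom := by
          intro hn
          apply hk
          rw [ch_succ]
          rw [Part.eq_some_iff.2 hx, Part.bind_some]
          exact hn
        have hrun : Run (e, τ₀) x := ⟨k, hx⟩
        refine ⟨τ₀, k, x, hατ.trans (base_prefix hrun), hx, hn, ?_⟩
        have hds : (dat s).1 = e := by rw [hs]
        exact alive_run (s := s) (τ₀ := τ₀) ho hτ (by rw [hds]; exact hrun)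
  · exfalso
    obtain ⟨X, hX, hav⟩ := hα
    obtain ⟨n, hn⟩ : ∃ n, ∀ f ∈ (state s).2, f.length < n := by
      have : ∀ L : List Str, ∃ n, ∀ f ∈ L, f.length < n := by
        intro L
        induction L with
        | nil => exact ⟨0, by simp⟩
        | cons a L ih =>
          obtain ⟨n, hn⟩ := ih
          refine ⟨max n (a.length + 1), fun f hf => ?_⟩
          rcases List.mem_cons.1 hf with rfl | hf
          · exact lt_of_lt_of_le (Nat.lt_succ_self _) (le_max_right _ _)
          · exact lt_of_lt_of_le (hn f hf) (le_max_left _ _)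
      exact this _
    have h1 : α <+: ini X (max n α.length) := by
      have := ini_prefix X (le_max_right n α.length)
      rwa [hX] at this
    obtain ⟨f, hf, hc⟩ := h _ h1
    have hfS : f ∈ SS := ⟨s, hf⟩
    have hlen := hn f hf
    have hfp : f <+: ini X (max n α.length) := by
      refine hc.symm.pfx ?_
      rw [ini_length]
      exact le_trans hlen.le (le_max_left _ _)
    exact hav f hfS ((pre_ini X _).mono hfp)

/-! ### The generic path -/

/-- The requirement for the code `e`: either some process of `e` is total, or `X` extends the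
final string of a process of `e`. -/
def Req (e : Code) (X : ℕ → Bool) : Prop :=
  (∃ τ₀, ∀ k, (ch (e, τ₀) k).Dom) ∨
  ∃ τ₀ k x, Pre x X ∧ x ∈ ch (e, τ₀) k ∧ ¬ (nxt e k x).Dom

theorem exists_limit {c : ℕ → Str} (hc : ∀ n, c n <+: c (n + 1))
    (hl : ∀ n, n ≤ (c (n + 1)).length) : ∃ X, ∀ n, Pre (c n) X := by
  have hmono : ∀ m n, c n <+: c (n + m) := by
    intro m
    induction m with
    | zero => intro n; exact List.prefix_rfl
    | succ m ih => intro n; exact (ih n).trans (hc _)
  refine ⟨fun i => (c (i + 2)).getD i false, fun n => pre_of_getElem? fun i hi => ?_⟩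
  have hi2 : i < (c (i + 2)).length := lt_of_lt_of_le (Nat.lt_succ_self i) (hl (i + 1))
  have hcomp : Compat (c n) (c (i + 2)) := by
    rcases le_total n (i + 2) with h | h
    · obtain ⟨m, hm⟩ := Nat.exists_eq_add_of_le h
      rw [hm]
      exact Or.inl (hmono m n)
    · obtain ⟨m, hm⟩ := Nat.exists_eq_add_of_le h
      rw [hm]
      exact Or.inr (hmono m (i + 2))
  rw [List.getD_eq_getElem?_getD, List.getElem?_eq_getElem hi2, List.getElem?_eq_getElem hi]
  simp only [Option.getD_some, Option.some.injEq]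
  rcases hcomp with h | h
  · exact h.getElem hi
  · exact (h.getElem hi2).symm

theorem exists_generic : ∃ X : ℕ → Bool, (∀ f ∈ SS, ¬ Pre f X) ∧ ∀ e : Code, Req e X := by
  have hstep : ∀ (n : ℕ) (σ : {σ : Str // Alive σ}), ∃ τ : {σ : Str // Alive σ},
      σ.1 <+: τ.1 ∧ n ≤ τ.1.length ∧ ∀ e : Code, encode e = n →
        ((∃ τ₀, ∀ k, (ch (e, τ₀) k).Dom) ∨
          ∃ τ₀ k x, x <+: τ.1 ∧ x ∈ ch (e, τ₀) k ∧ ¬ (nxt e k x).Dom) := by
    rintro n ⟨σ, hσ⟩
    have hex : ∃ τ, Alive τ ∧ σ <+: τ ∧ ∀ e : Code, encode e = n →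
        ((∃ τ₀, ∀ k, (ch (e, τ₀) k).Dom) ∨
          ∃ τ₀ k x, x <+: τ ∧ x ∈ ch (e, τ₀) k ∧ ¬ (nxt e k x).Dom) := by
      by_cases he : ∃ e : Code, encode e = n
      · obtain ⟨e, he⟩ := he
        rcases alive_handle hσ e with h | ⟨τ₀, k, x, h1, h2, h3, h4⟩
        · refine ⟨σ, hσ, List.prefix_rfl, ?_⟩
          intro e' he'
          obtain rfl : e' = e := encode_injective (he'.trans he.symm)
          exact Or.inl h
        · refine ⟨x, h4, h1, ?_⟩
          intro e' he'
          obtain rfl : e' = e := encode_injective (he'.trans he.symm)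
          exact Or.inr ⟨τ₀, k, x, List.prefix_rfl, h2, h3⟩
      · exact ⟨σ, hσ, List.prefix_rfl, fun e' he' => absurd ⟨e', he'⟩ he⟩
    obtain ⟨τ, hτ, hστ, hreq⟩ := hex
    obtain ⟨τ', h1, h2, h3⟩ := hτ.extend n
    refine ⟨⟨τ', h3⟩, hστ.trans h1, h2, ?_⟩
    intro e he
    rcases hreq e he with h | ⟨τ₀, k, x, g1, g2, g3⟩
    · exact Or.inl h
    · exact Or.inr ⟨τ₀, k, x, g1.trans h1, g2, g3⟩
  choose nx h1 h2 h3 using hstep
  let c : ℕ → {σ : Str // Alive σ} := fun n => Nat.rec ⟨[], alive_nil⟩ (fun n σ => nx n σ) n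
  have hc : ∀ n, c (n + 1) = nx n (c n) := fun n => rfl
  obtain ⟨X, hX⟩ := exists_limit (c := fun n => (c n).1) (fun n => by
    simp only [hc]; exact h1 n (c n)) (fun n => by simp only [hc]; exact h2 n (c n))
  refine ⟨X, ?_, ?_⟩
  · intro f hf hpre
    have hlen : f.length ≤ (c (f.length + 1)).1.length := by
      rw [hc]
      exact h2 _ _
    have hfp : f <+: (c (f.length + 1)).1 := (hpre.compat (hX (f.length + 1))).pfx hlen
    obtain ⟨Y, hY, hav⟩ := (c (f.length + 1)).2
    exact hav f hf (hY.mono hfp)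
  · intro e
    rcases h3 (encode e) (c (encode e)) e rfl with h | ⟨τ₀, k, x, g1, g2, g3⟩
    · exact Or.inl h
    · right
      refine ⟨τ₀, k, x, ?_, g2, g3⟩
      refine (hX (encode e + 1)).mono ?_
      simp only [hc]
      exact g1

end Pool.Agent.H36.LFI
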