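import Pool.Agent.H36.LFI.Functional

/-!
Computable search processes on strings.
-/

namespace Pool.Agent.H36.LFI

open Encodable
open Nat.Partrec (Code)

theorem primrecPred_prefix {α : Type} [Primcodable α] {f g : α → Str} (hf : Primrec f)
    (hg : Primrec g) : PrimrecPred (fun a => f a <+: g a) := by
  refine (Primrec.eq.comp hf (Primrec.list_take.comp (Primrec.list_length.comp hf) hg)).of_eq ?_
  intro a
  exact List.prefix_iff_eq_take.symm

/-- Compatible strings. -/
def Compat (σ τ : Str) : Prop := σ <+: τ ∨ τ <+: σ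

theorem Compat.symm {σ τ : Str} (h : Compat σ τ) : Compat τ σ := Or.symm h

theorem compat_of_prefix {σ τ ρ : Str} (h1 : σ <+: ρ) (h2 : τ <+: ρ) : Compat σ τ := by
  rcases le_total σ.length τ.length with h | h
  · exact Or.inl (List.prefix_of_prefix_length_le h1 h2 h)
  · exact Or.inr (List.prefix_of_prefix_length_le h2 h1 h)

theorem Compat.mono {σ τ σ' τ' : Str} (h : Compat σ' τ') (h1 : σ <+: σ') (h2 : τ <+: τ') :
    Compat σ τ := by
  rcases h with h | h
  · exact compat_of_prefix (h1.trans h) h2
  · exact compat_of_prefix h1 (h2.trans h)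

theorem Compat.pfx {σ τ : Str} (h : Compat σ τ) (hl : σ.length ≤ τ.length) : σ <+: τ := by
  rcases h with h | h
  · exact h
  · have := h.length_le
    have he : τ.length = σ.length := le_antisymm this hl
    rw [h.eq_of_length he]

theorem primrecPred_compat {α : Type} [Primcodable α] {f g : α → Str} (hf : Primrec f)
    (hg : Primrec g) : PrimrecPred (fun a => Compat (f a) (g a)) :=
  (primrecPred_prefix hf hg).or (primrecPred_prefix hg hf)

/-- `τ` achieves the goal number `k` of the code `e`. -/
def Goal (e : Code) (k : ℕ) (τ : Str) : Prop :=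
  ∃ t, (Code.evaln t e (encode (k, τ))).isSome = true

open Classical in
/-- One step of the search for an extension of `x` that achieves goal `k`. -/
noncomputable def stepF (e : Code) (k : ℕ) (x : Str) (n : ℕ) : Option Str :=
  (decode (α := Str × ℕ) n).bind fun p =>
    if x <+: p.1 ∧ (Code.evaln p.2 e (encode (k, p.1))).isSome = true then some p.1 else none

theorem primrec_stepF : Primrec (fun a : (Code × ℕ × Str) × ℕ =>
    stepF a.1.1 a.1.2.1 a.1.2.2 a.2) := by
  classical
  unfold stepF
  refine Primrec.option_bind (Primrec.decode.comp Primrec.snd) ?_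
  refine Primrec.ite ?_ ?_ (Primrec.const none)
  · refine PrimrecPred.and ?_ ?_
    · exact primrecPred_prefix (Primrec.snd.comp (Primrec.snd.comp (Primrec.fst.comp Primrec.fst)))
        (Primrec.fst.comp Primrec.snd)
    · refine PrimrecPred.isSome_evaln ?_ ?_ ?_
      · exact Primrec.fst.comp (Primrec.fst.comp Primrec.fst)
      · exact Primrec.snd.comp Primrec.snd
      · exact Primrec.encode.comp (Primrec.pair
          (Primrec.fst.comp (Primrec.snd.comp (Primrec.fst.comp Primrec.fst)))
          (Primrec.fst.comp Primrec.snd))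
  · exact Primrec.option_some.comp (Primrec.fst.comp Primrec.snd)

/-- The first extension of `x` found that achieves goal `k`. -/
noncomputable def nxt (e : Code) (k : ℕ) (x : Str) : Part Str := Nat.rfindOpt (stepF e k x)

theorem partrec_nxt : Partrec (fun a : Code × ℕ × Str => nxt a.1 a.2.1 a.2.2) :=
  Partrec.rfindOpt primrec_stepF.to_comp

theorem mem_stepF {e : Code} {k : ℕ} {x y : Str} {n : ℕ} (h : y ∈ stepF e k x n) :
    x <+: y ∧ Goal e k y := by
  classical
  unfold stepF at h
  rw [Option.mem_def, Option.bind_eq_some_iff] at h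
  obtain ⟨p, _, hp⟩ := h
  split_ifs at hp with hc
  · rw [Option.some.injEq] at hp
    subst hp
    exact ⟨hc.1, ⟨_, hc.2⟩⟩

theorem mem_nxt {e : Code} {k : ℕ} {x y : Str} (h : y ∈ nxt e k x) : x <+: y ∧ Goal e k y := by
  obtain ⟨n, hn⟩ := Nat.rfindOpt_spec h
  exact mem_stepF hn

theorem nxt_dom {e : Code} {k : ℕ} {x : Str} : (nxt e k x).Dom ↔ ∃ y, x <+: y ∧ Goal e k y := by
  classical
  constructor
  · intro h
    exact ⟨_, mem_nxt (Part.get_mem h)⟩
  · rintro ⟨y, hxy, t, ht⟩
    unfold nxt
    rw [Nat.rfindOpt_dom]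
    refine ⟨encode (y, t), y, ?_⟩
    unfold stepF
    rw [encodek, Option.bind_some, if_pos ⟨hxy, ht⟩]
    rfl

attribute [irreducible] stepF nxt

/-- The `k`-th string of the process `p`. -/
noncomputable def ch (p : Code × Str) (k : ℕ) : Part Str :=
  Nat.rec (motive := fun _ => Part Str) (Part.some p.2) (fun k IH => IH.bind (nxt p.1 k)) k

theorem partrec_ch : Partrec (fun a : (Code × Str) × ℕ => ch a.1 a.2) := by
  unfold ch
  refine Partrec.nat_rec (f := fun a : (Code × Str) × ℕ => a.2)
    (g := fun a : (Code × Str) × ℕ => Part.some a.1.2)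
    (h := fun (a : (Code × Str) × ℕ) (r : ℕ × Str) => nxt a.1.1 r.1 r.2) Computable.snd ?_ ?_
  · exact (Computable.snd.comp Computable.fst).partrec
  · have h1 : Computable (fun a : ((Code × Str) × ℕ) × (ℕ × Str) =>
        ((a.1.1.1, a.2) : Code × ℕ × Str)) :=
      Computable.pair (Computable.fst.comp (Computable.fst.comp Computable.fst)) Computable.snd
    exact (partrec_nxt.comp h1).to₂

theorem ch_zero (p : Code × Str) : ch p 0 = Part.some p.2 := rfl

theorem ch_succ (p : Code × Str) (k : ℕ) : ch p (k + 1) = (ch p k).bind (nxt p.1 k) := rfl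

theorem ch_succ_prefix {p : Code × Str} {k : ℕ} {x y : Str} (hx : x ∈ ch p k)
    (hy : y ∈ ch p (k + 1)) : x <+: y ∧ Goal p.1 k y := by
  rw [ch_succ, Part.mem_bind_iff] at hy
  obtain ⟨x', hx', hy⟩ := hy
  rw [Part.mem_unique hx hx']
  exact mem_nxt hy

theorem ch_dom_of_succ {p : Code × Str} {k : ℕ} (h : (ch p (k + 1)).Dom) : (ch p k).Dom := by
  rw [ch_succ] at h
  exact Part.Dom.of_bind h

theorem ch_prefix {p : Code × Str} {k : ℕ} {x : Str} (hx : x ∈ ch p k) :
    ∀ {m : ℕ} {y : Str}, y ∈ ch p (k + m) → x <+: y := by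
  intro m
  induction m with
  | zero =>
    intro y hy
    rw [Part.mem_unique hx hy]
  | succ m ih =>
    intro y hy
    have hd : (ch p (k + m)).Dom :=
      ch_dom_of_succ (Part.dom_iff_mem.2 ⟨y, hy⟩)
    exact (ih (Part.get_mem hd)).trans (ch_succ_prefix (Part.get_mem hd) hy).1

/-- `x` is a string of the process `p`. -/
def Run (p : Code × Str) (x : Str) : Prop := ∃ k, x ∈ ch p k

theorem run_compat {p : Code × Str} {x y : Str} (hx : Run p x) (hy : Run p y) : Compat x y := by
  obtain ⟨k, hk⟩ := hx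
  obtain ⟨l, hl⟩ := hy
  rcases le_total k l with h | h
  · obtain ⟨m, rfl⟩ := Nat.exists_eq_add_of_le h
    exact Or.inl (ch_prefix hk hl)
  · obtain ⟨m, rfl⟩ := Nat.exists_eq_add_of_le h
    exact Or.inr (ch_prefix hl hk)

theorem base_prefix {p : Code × Str} {x : Str} (hx : Run p x) : p.2 <+: x := by
  obtain ⟨k, hk⟩ := hx
  have : x ∈ ch p (0 + k) := by rwa [Nat.zero_add]
  exact ch_prefix (Part.mem_some p.2) this

theorem SD_run : SD (fun a : (Code × Str) × Str => Run a.1 a.2) := by
  refine SD.ex (p := fun (a : (Code × Str) × Str) k => a.2 ∈ ch a.1 k) ?_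
  have h := SD.graph partrec_ch
  refine (h.comp (f := fun x : ((Code × Str) × Str) × ℕ => ((x.1.1, x.2), x.1.2)) ?_)
  exact Primrec.pair (Primrec.pair (Primrec.fst.comp Primrec.fst) Primrec.snd)
    (Primrec.snd.comp Primrec.fst)

/-- `σ` is an initial segment of a string of the process `p`. -/
def Below (p : Code × Str) (σ : Str) : Prop := ∃ x, Run p x ∧ σ <+: x

theorem SD_below : SD (fun a : (Code × Str) × Str => Below a.1 a.2) := by
  refine SD.ex (p := fun (a : (Code × Str) × Str) x => Run a.1 x ∧ a.2 <+: x) ?_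
  refine SD.and ?_ (SD.of_primrec ?_)
  · refine (SD_run.comp (f := fun x : ((Code × Str) × Str) × Str => (x.1.1, x.2)) ?_)
    exact Primrec.pair (Primrec.fst.comp Primrec.fst) Primrec.snd
  · exact primrecPred_prefix (Primrec.snd.comp Primrec.fst) Primrec.snd

theorem Below.mono {p : Code × Str} {σ τ : Str} (h : Below p τ) (hs : σ <+: τ) : Below p σ := by
  obtain ⟨x, hx, h⟩ := h
  exact ⟨x, hx, hs.trans h⟩

theorem below_compat {p : Code × Str} {σ τ : Str} (h : Below p σ) (h' : Below p τ) :
    Compat σ τ := by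
  obtain ⟨x, hx, h⟩ := h
  obtain ⟨y, hy, h'⟩ := h'
  exact (run_compat hx hy).mono h h'

end Pool.Agent.H36.LFI
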