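import Pool.Agent.H36.LFI.Chain

/-!
The construction of the set `S` of strings by stages. Every stage is determined by a least
witness for a co-semidecidable condition.
-/

namespace Pool.Agent.H36.LFI

open Encodable
open Nat.Partrec (Code)

/-! ### Co-semidecidable predicates -/

section PD

variable {α β : Type} [Primcodable α] [Primcodable β]

/-- Co-semidecidable predicates. -/
def PD (p : α → Prop) : Prop := SD (fun a => ¬ p a)

theorem PD.of_eq {p p' : α → Prop} (h : PD p) (e : ∀ a, p a ↔ p' a) : PD p' :=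
  SD.of_eq h (fun a => not_congr (e a))

theorem PD.comp {p : α → Prop} (h : PD p) {f : β → α} (hf : Primrec f) :
    PD (fun b => p (f b)) := SD.comp h hf

theorem PD.of_primrec {p : α → Prop} (h : PrimrecPred p) : PD p := SD.of_primrec h.not

theorem PD.and {p p' : α → Prop} (h : PD p) (h' : PD p') : PD (fun a => p a ∧ p' a) :=
  (SD.or h h').of_eq (fun a => by tauto)

theorem PD.or {p p' : α → Prop} (h : PD p) (h' : PD p') : PD (fun a => p a ∨ p' a) :=
  (SD.and h h').of_eq (fun a => by tauto)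

theorem PD.of_not {p : α → Prop} (h : SD p) : PD (fun a => ¬ p a) :=
  h.of_eq (fun a => by tauto)

theorem PD.all {p : α → β → Prop} (h : PD (fun x : α × β => p x.1 x.2)) :
    PD (fun a => ∀ b, p a b) :=
  (SD.ex (p := fun a b => ¬ p a b) h).of_eq (fun a => by simp)

theorem PD.ball {p : α → β → Prop} (h : PD (fun x : α × β => p x.1 x.2)) {l : α → List β}
    (hl : Primrec l) : PD (fun a => ∀ b ∈ l a, p a b) :=
  (SD.bex (p := fun a b => ¬ p a b) h hl).of_eq (fun a => by simp)

theorem PD.bex {p : α → β → Prop} (h : PD (fun x : α × β => p x.1 x.2)) {l : α → List β}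
    (hl : Primrec l) : PD (fun a => ∃ b ∈ l a, p a b) :=
  (SD.ball (p := fun a b => ¬ p a b) h hl).of_eq (fun a => by simp)

theorem primrec_toList : Primrec (fun o : Option β => o.toList) := by
  refine (Primrec.option_casesOn Primrec.id (Primrec.const [])
    ((Primrec.list_cons.comp Primrec.snd (Primrec.const [])).to₂)).of_eq ?_
  intro o
  cases o <;> rfl

end PD

/-! ### Axioms -/

/-- Axioms of the code `c` found within `t` steps. -/
def AxT (c : Code) (t : ℕ) (τ σ : Str) : Prop := (Code.evaln t c (encode (τ, σ))).isSome = true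

/-- Axioms of the code `c`: the pairs `(τ, σ)` for which `σ` is the output on the input `τ`. -/
def Ax (c : Code) (τ σ : Str) : Prop := ∃ t, AxT c t τ σ

theorem AxT.mono {c : Code} {t t' : ℕ} {τ σ : Str} (h : AxT c t τ σ) (ht : t ≤ t') :
    AxT c t' τ σ := by
  unfold AxT at *
  obtain ⟨u, hu⟩ := Option.isSome_iff_exists.1 h
  have := Code.evaln_mono ht (Option.mem_def.2 hu)
  rw [Option.mem_def] at this
  rw [this]
  rfl

theorem primrecPred_AxT {α : Type} [Primcodable α] {c : α → Code} {t : α → ℕ} {f g : α → Str}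
    (hc : Primrec c) (ht : Primrec t) (hf : Primrec f) (hg : Primrec g) :
    PrimrecPred (fun a => AxT (c a) (t a) (f a) (g a)) :=
  PrimrecPred.isSome_evaln hc ht (Primrec.encode.comp (Primrec.pair hf hg))

theorem SD_Ax : SD (fun x : Code × Str × Str => Ax x.1 x.2.1 x.2.2) := by
  refine SD.ex (p := fun (x : Code × Str × Str) t => AxT x.1 t x.2.1 x.2.2) (SD.of_primrec ?_)
  exact primrecPred_AxT (Primrec.fst.comp Primrec.fst) Primrec.snd
    (Primrec.fst.comp (Primrec.snd.comp Primrec.fst))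
    (Primrec.snd.comp (Primrec.snd.comp Primrec.fst))

/-! ### Stages -/

/-- The state: processes started so far, and strings enumerated into `S` so far. -/
abbrev St := List (Code × Str) × List Str

/-- The data `(e, σ, c, ρ)` treated at a stage: a process for `e` above `σ` is requested, and the
functional `c` is treated above `ρ`. -/
abbrev Dat := Code × Str × Code × Str

/-- The data treated at stage `s`. -/
def dat (s : ℕ) : Dat := (decode (α := Dat) s).getD default

/-- Witnesses `(o, kd, a, b, c, d, t)`. -/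
abbrev Wit := Option Str × ℕ × Str × Str × Str × Str × ℕ

/-- The processes after the start of a new one. -/
def newJ (J : List (Code × Str)) (e : Code) (o : Option Str) : List (Code × Str) :=
  J ++ o.toList.map (fun τ => (e, τ))

/-- Condition on the start of the process. -/
def StartOK (F : List Str) (σ : Str) (o : Option Str) : Prop :=
  (∃ τ ∈ o.toList, σ <+: τ ∧ ∀ f ∈ F, ¬ Compat τ f) ∨
  (o = none ∧ ∀ τ, σ <+: τ → ∃ f ∈ F, Compat τ f)

/-- Condition on the treatment of the functional. -/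
def WitOK (J : List (Code × Str)) (s : ℕ) (c : Code) (ρ : Str)
    (w : ℕ × Str × Str × Str × Str × ℕ) : Prop :=
  (w.1 = 0 ∧ ρ <+: w.2.1 ∧ ∀ x : Str × Str, w.2.1 <+: x.1 → Ax c x.1 x.2 →
    x.2.length < w.2.2.2.2.2) ∨
  (w.1 = 1 ∧ ρ <+: w.2.1 ∧ ∀ x : (Str × Str) × (Str × Str), w.2.1 <+: x.1.1 → w.2.1 <+: x.2.1 →
    Ax c x.1.1 x.1.2 → Ax c x.2.1 x.2.2 → Compat x.1.2 x.2.2) ∨
  (w.1 = 2 ∧ ρ <+: w.2.1 ∧ AxT c w.2.2.2.2.2 w.2.1 w.2.2.1 ∧
    ∀ p ∈ J, ¬ Below p (w.2.2.1.take (w.2.2.1.length - s))) ∨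
  (w.1 = 3 ∧ AxT c w.2.2.2.2.2 w.2.1 w.2.2.1 ∧ AxT c w.2.2.2.2.2 w.2.2.2.1 w.2.2.2.2.1 ∧
    w.2.1 <+: w.2.2.2.1 ∧ ¬ Compat w.2.2.1 w.2.2.2.2.1)

/-- The witness condition at stage `s`. -/
def PW (st : St) (s : ℕ) (w : Wit) : Prop :=
  StartOK st.2 (dat s).2.1 w.1 ∧
  WitOK (newJ st.1 (dat s).1 w.1) s (dat s).2.2.1 (dat s).2.2.2 w.2

/-- The witness condition in terms of codes of witnesses. -/
def P (st : St) (s : ℕ) (n : ℕ) : Prop := ∃ w ∈ (decode (α := Wit) n).toList, PW st s w

/-- The next state. -/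
def newSt (st : St) (s : ℕ) (w : Wit) : St :=
  (newJ st.1 (dat s).1 w.1, st.2 ++ (if w.2.1 = 2 then [w.2.2.2.1] else []))

/-- The next state, in terms of codes of witnesses. -/
def newStN (st : St) (s : ℕ) (n : ℕ) : St :=
  ((decode (α := Wit) n).map (newSt st s)).getD st

/-! ### Existence of witnesses -/

theorem exists_start (F : List Str) (σ : Str) : ∃ o, StartOK F σ o := by
  by_cases h : ∃ τ, σ <+: τ ∧ ∀ f ∈ F, ¬ Compat τ f
  · obtain ⟨τ, h⟩ := h
    exact ⟨some τ, Or.inl ⟨τ, by simp, h⟩⟩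
  · push Not at h
    exact ⟨none, Or.inr ⟨rfl, h⟩⟩

theorem exists_witOK (J : List (Code × Str)) (s : ℕ) (c : Code) (ρ : Str) :
    ∃ w, WitOK J s c ρ w := by
  by_contra hno
  push Not at hno
  -- consistency
  have hcons : ∀ τ σ τ' σ', Ax c τ σ → Ax c τ' σ' → τ <+: τ' → Compat σ σ' := by
    rintro τ σ τ' σ' ⟨t, h⟩ ⟨t', h'⟩ hττ
    by_contra hc
    exact hno (3, τ, σ, τ', σ', max t t') (Or.inr (Or.inr (Or.inr ⟨rfl,
      h.mono (le_max_left _ _), h'.mono (le_max_right _ _), hττ, hc⟩)))
  -- long outputs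
  have hlong : ∀ a, ρ <+: a → ∀ m, ∃ τ σ, a <+: τ ∧ Ax c τ σ ∧ m ≤ σ.length := by
    intro a ha m
    by_contra hc
    push Not at hc
    exact hno (0, a, [], [], [], m) (Or.inl ⟨rfl, ha, fun x hx hAx => hc x.1 x.2 hx hAx⟩)
  -- splitting
  have hsplit : ∀ a, ρ <+: a → ∃ τ σ τ' σ', a <+: τ ∧ a <+: τ' ∧ Ax c τ σ ∧ Ax c τ' σ' ∧
      ¬ Compat σ σ' := by
    intro a ha
    by_contra hc
    push Not at hc
    exact hno (1, a, [], [], [], 0) (Or.inr (Or.inl ⟨rfl, ha, fun x h1 h2 h3 h4 =>
      hc x.1.1 x.1.2 x.2.1 x.2.2 h1 h2 h3 h4⟩))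
  -- extension of an axiom
  have hext : ∀ τ σ, ρ <+: τ → Ax c τ σ → ∀ m, ∃ τ' σ', τ <+: τ' ∧ σ <+: σ' ∧ Ax c τ' σ' ∧
      m ≤ σ'.length := by
    intro τ σ hρ hAx m
    obtain ⟨τ', σ', h1, h2, h3⟩ := hlong τ hρ (max m σ.length)
    have hc := hcons τ σ τ' σ' hAx h2 h1
    exact ⟨τ', σ', h1, hc.pfx (le_trans (le_max_right _ _) h3), h2,
      le_trans (le_max_left _ _) h3⟩
  -- splitting above an axiom
  have hsplit2 : ∀ τ σ, ρ <+: τ → Ax c τ σ → ∃ τ₁ σ₁ τ₂ σ₂, τ <+: τ₁ ∧ τ <+: τ₂ ∧
      σ <+: σ₁ ∧ σ <+: σ₂ ∧ Ax c τ₁ σ₁ ∧ Ax c τ₂ σ₂ ∧ ¬ Compat σ₁ σ₂ := by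
    intro τ σ hρ hAx
    obtain ⟨τa, σa, τb, σb, ha, hb, hAa, hAb, hinc⟩ := hsplit τ hρ
    obtain ⟨τa', σa', ha', hsa, hAa', hla⟩ := hext τa σa (hρ.trans ha) hAa σ.length
    obtain ⟨τb', σb', hb', hsb, hAb', hlb⟩ := hext τb σb (hρ.trans hb) hAb σ.length
    refine ⟨τa', σa', τb', σb', ha.trans ha', hb.trans hb', ?_, ?_, hAa', hAb', ?_⟩
    · exact (hcons τ σ τa' σa' hAx hAa' (ha.trans ha')).pfx hla
    · exact (hcons τ σ τb' σb' hAx hAb' (hb.trans hb')).pfx hlb
    · intro hc
      exact hinc (hc.mono hsa hsb)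
  -- avoiding the processes
  have havoid : ∀ J : List (Code × Str), ∃ τ σ, ρ <+: τ ∧ Ax c τ σ ∧ ∀ p ∈ J, ¬ Below p σ := by
    intro J
    induction J with
    | nil =>
      obtain ⟨τ, σ, h1, h2, _⟩ := hlong ρ List.prefix_rfl 0
      exact ⟨τ, σ, h1, h2, by simp⟩
    | cons p J ih =>
      obtain ⟨τ, σ, hρ, hAx, hJ⟩ := ih
      obtain ⟨τ₁, σ₁, τ₂, σ₂, h1, h2, s1, s2, A1, A2, hinc⟩ := hsplit2 τ σ hρ hAx
      by_cases hb : Below p σ₁
      · refine ⟨τ₂, σ₂, hρ.trans h2, A2, ?_⟩
        intro q hq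
        rcases List.mem_cons.1 hq with rfl | hq
        · intro hb'
          exact hinc (below_compat hb hb')
        · exact fun hb' => hJ q hq (hb'.mono s2)
      · refine ⟨τ₁, σ₁, hρ.trans h1, A1, ?_⟩
        intro q hq
        rcases List.mem_cons.1 hq with rfl | hq
        · exact hb
        · exact fun hb' => hJ q hq (hb'.mono s1)
  obtain ⟨τ, σ, hρ, hAx, hJ⟩ := havoid J
  obtain ⟨τ', σ', h1, h2, ⟨t, ht⟩, h4⟩ := hext τ σ hρ hAx (σ.length + s)
  refine hno (2, τ', σ', [], [], t) (Or.inr (Or.inr (Or.inl ⟨rfl, hρ.trans h1, ht, ?_⟩)))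
  intro p hp hb
  refine hJ p hp (hb.mono ?_)
  apply List.prefix_of_prefix_length_le h2 (List.take_prefix _ _)
  rw [List.length_take]
  show σ.length ≤ min (σ'.length - s) σ'.length
  omega

theorem exists_P (st : St) (s : ℕ) : ∃ n, P st s n := by
  obtain ⟨o, ho⟩ := exists_start st.2 (dat s).2.1
  obtain ⟨w, hw⟩ := exists_witOK (newJ st.1 (dat s).1 o) s (dat s).2.2.1 (dat s).2.2.2
  exact ⟨encode ((o, w) : Wit), (o, w), by simp, ho, hw⟩

/-! ### Effectivity of the witness condition -/

theorem PD_StartOK : PD (fun x : List Str × Str × Option Str => StartOK x.1 x.2.1 x.2.2) := by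
  unfold StartOK
  refine PD.or ?_ ?_
  · refine PD.bex (p := fun (x : List Str × Str × Option Str) τ =>
      x.2.1 <+: τ ∧ ∀ f ∈ x.1, ¬ Compat τ f) ?_
      (primrec_toList.comp (Primrec.snd.comp Primrec.snd))
    refine PD.and (PD.of_primrec ?_) ?_
    · exact primrecPred_prefix (Primrec.fst.comp (Primrec.snd.comp Primrec.fst)) Primrec.snd
    · refine PD.ball (p := fun (x : (List Str × Str × Option Str) × Str) f => ¬ Compat x.2 f)
        (PD.of_primrec ?_) (Primrec.fst.comp Primrec.fst)
      exact (primrecPred_compat (Primrec.snd.comp Primrec.fst) Primrec.snd).not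
  · refine PD.and (PD.of_primrec ?_) ?_
    · exact Primrec.eq.comp (Primrec.snd.comp Primrec.snd) (Primrec.const none)
    · refine (PD.all (p := fun (x : List Str × Str × Option Str) τ =>
        (¬ x.2.1 <+: τ) ∨ ∃ f ∈ x.1, Compat τ f) ?_).of_eq ?_
      · refine PD.or (PD.of_primrec (PrimrecPred.not ?_)) ?_
        · exact primrecPred_prefix (Primrec.fst.comp (Primrec.snd.comp Primrec.fst)) Primrec.snd
        · refine PD.bex (p := fun (x : (List Str × Str × Option Str) × Str) f => Compat x.2 f)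
            (PD.of_primrec ?_) (Primrec.fst.comp Primrec.fst)
          exact primrecPred_compat (Primrec.snd.comp Primrec.fst) Primrec.snd
      · intro x
        exact forall_congr' fun τ => imp_iff_not_or.symm

/-- The arguments of `WitOK`. -/
abbrev WArg := List (Code × Str) × ℕ × Code × Str × (ℕ × Str × Str × Str × Str × ℕ)

theorem PD_WitOK : PD (fun x : WArg => WitOK x.1 x.2.1 x.2.2.1 x.2.2.2.1 x.2.2.2.2) := by
  have hJ : Primrec (fun x : WArg => x.1) := Primrec.fst
  have hs : Primrec (fun x : WArg => x.2.1) := Primrec.fst.comp Primrec.snd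
  have hc : Primrec (fun x : WArg => x.2.2.1) :=
    Primrec.fst.comp (Primrec.snd.comp Primrec.snd)
  have hρ : Primrec (fun x : WArg => x.2.2.2.1) :=
    Primrec.fst.comp (Primrec.snd.comp (Primrec.snd.comp Primrec.snd))
  have hw : Primrec (fun x : WArg => x.2.2.2.2) :=
    Primrec.snd.comp (Primrec.snd.comp (Primrec.snd.comp Primrec.snd))
  have hk : Primrec (fun x : WArg => x.2.2.2.2.1) := Primrec.fst.comp hw
  have ha : Primrec (fun x : WArg => x.2.2.2.2.2.1) := Primrec.fst.comp (Primrec.snd.comp hw)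
  have hb : Primrec (fun x : WArg => x.2.2.2.2.2.2.1) :=
    Primrec.fst.comp (Primrec.snd.comp (Primrec.snd.comp hw))
  have hc' : Primrec (fun x : WArg => x.2.2.2.2.2.2.2.1) :=
    Primrec.fst.comp (Primrec.snd.comp (Primrec.snd.comp (Primrec.snd.comp hw)))
  have hd : Primrec (fun x : WArg => x.2.2.2.2.2.2.2.2.1) :=
    Primrec.fst.comp (Primrec.snd.comp (Primrec.snd.comp (Primrec.snd.comp
      (Primrec.snd.comp hw))))
  have ht : Primrec (fun x : WArg => x.2.2.2.2.2.2.2.2.2) :=
    Primrec.snd.comp (Primrec.snd.comp (Primrec.snd.comp (Primrec.snd.comp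
      (Primrec.snd.comp hw))))
  have hkd : ∀ k : ℕ, PD (fun x : WArg => x.2.2.2.2.1 = k) := fun k =>
    PD.of_primrec (Primrec.eq.comp hk (Primrec.const k))
  have hρa : PD (fun x : WArg => x.2.2.2.1 <+: x.2.2.2.2.2.1) :=
    PD.of_primrec (primrecPred_prefix hρ ha)
  unfold WitOK
  refine PD.or ?_ (PD.or ?_ (PD.or ?_ ?_))
  · refine PD.and (hkd 0) (PD.and hρa ?_)
    refine (PD.all (p := fun (x : WArg) (y : Str × Str) => (¬ x.2.2.2.2.2.1 <+: y.1) ∨
      (¬ Ax x.2.2.1 y.1 y.2) ∨ y.2.length < x.2.2.2.2.2.2.2.2.2) ?_).of_eq ?_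
    · refine PD.or (PD.of_primrec (PrimrecPred.not ?_)) (PD.or (PD.of_not ?_)
        (PD.of_primrec ?_))
      · exact primrecPred_prefix (ha.comp Primrec.fst) (Primrec.fst.comp Primrec.snd)
      · exact SD_Ax.comp (f := fun x : WArg × Str × Str => (x.1.2.2.1, x.2))
          (Primrec.pair (hc.comp Primrec.fst) Primrec.snd)
      · exact Primrec.nat_lt.comp (Primrec.list_length.comp (Primrec.snd.comp Primrec.snd))
          (ht.comp Primrec.fst)
    · intro x
      refine forall_congr' fun y => ?_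
      tauto
  · refine PD.and (hkd 1) (PD.and hρa ?_)
    refine (PD.all (p := fun (x : WArg) (y : (Str × Str) × (Str × Str)) =>
      (¬ x.2.2.2.2.2.1 <+: y.1.1) ∨ (¬ x.2.2.2.2.2.1 <+: y.2.1) ∨
      (¬ Ax x.2.2.1 y.1.1 y.1.2) ∨ (¬ Ax x.2.2.1 y.2.1 y.2.2) ∨ Compat y.1.2 y.2.2) ?_).of_eq ?_
    · refine PD.or (PD.of_primrec (PrimrecPred.not ?_))
        (PD.or (PD.of_primrec (PrimrecPred.not ?_))
        (PD.or (PD.of_not ?_) (PD.or (PD.of_not ?_) (PD.of_primrec ?_))))
      · exact primrecPred_prefix (ha.comp Primrec.fst)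
          (Primrec.fst.comp (Primrec.fst.comp Primrec.snd))
      · exact primrecPred_prefix (ha.comp Primrec.fst)
          (Primrec.fst.comp (Primrec.snd.comp Primrec.snd))
      · exact SD_Ax.comp (f := fun x : WArg × (Str × Str) × (Str × Str) => (x.1.2.2.1, x.2.1))
          (Primrec.pair (hc.comp Primrec.fst) (Primrec.fst.comp Primrec.snd))
      · exact SD_Ax.comp (f := fun x : WArg × (Str × Str) × (Str × Str) => (x.1.2.2.1, x.2.2))
          (Primrec.pair (hc.comp Primrec.fst) (Primrec.snd.comp Primrec.snd))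
      · exact primrecPred_compat (Primrec.snd.comp (Primrec.fst.comp Primrec.snd))
          (Primrec.snd.comp (Primrec.snd.comp Primrec.snd))
    · intro x
      refine forall_congr' fun y => ?_
      simp only [imp_iff_not_or]
  · refine PD.and (hkd 2) (PD.and hρa (PD.and (PD.of_primrec ?_) ?_))
    · exact primrecPred_AxT hc ht ha hb
    · refine PD.ball (p := fun (x : WArg) (p : Code × Str) =>
        ¬ Below p (x.2.2.2.2.2.2.1.take (x.2.2.2.2.2.2.1.length - x.2.1))) (PD.of_not ?_) hJ
      refine SD_below.comp (f := fun x : WArg × (Code × Str) =>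
        (x.2, x.1.2.2.2.2.2.2.1.take (x.1.2.2.2.2.2.2.1.length - x.1.2.1))) ?_
      refine Primrec.pair Primrec.snd (Primrec.list_take.comp ?_ (hb.comp Primrec.fst))
      exact Primrec.nat_sub.comp (Primrec.list_length.comp (hb.comp Primrec.fst))
        (hs.comp Primrec.fst)
  · refine PD.and (hkd 3) (PD.of_primrec ?_)
    refine PrimrecPred.and (primrecPred_AxT hc ht ha hb)
      (PrimrecPred.and (primrecPred_AxT hc ht hc' hd)
        (PrimrecPred.and (primrecPred_prefix ha hc') (primrecPred_compat hb hd).not))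

/-! ### The sequence of stages -/

theorem primrec_dat : Primrec dat :=
  Primrec.option_getD.comp Primrec.decode (Primrec.const default)

theorem primrec_newJ : Primrec (fun x : List (Code × Str) × Code × Option Str =>
    newJ x.1 x.2.1 x.2.2) := by
  unfold newJ
  refine Primrec.list_append.comp Primrec.fst ?_
  refine Primrec.list_map (primrec_toList.comp (Primrec.snd.comp Primrec.snd)) ?_
  exact Primrec.pair (Primrec.fst.comp (Primrec.snd.comp Primrec.fst)) Primrec.snd

theorem primrec_newSt : Primrec (fun x : (St × ℕ) × Wit => newSt x.1.1 x.1.2 x.2) := by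
  unfold newSt
  refine Primrec.pair ?_ (Primrec.list_append.comp ?_ (Primrec.ite ?_ ?_ (Primrec.const [])))
  · exact primrec_newJ.comp (f := fun x : List (Code × Str) × Code × Option Str =>
      newJ x.1 x.2.1 x.2.2) (g := fun x : (St × ℕ) × Wit => (x.1.1.1, (dat x.1.2).1, x.2.1))
      (Primrec.pair (Primrec.fst.comp (Primrec.fst.comp Primrec.fst))
        (Primrec.pair (Primrec.fst.comp (primrec_dat.comp (Primrec.snd.comp Primrec.fst)))
          (Primrec.fst.comp Primrec.snd)))
  · exact Primrec.snd.comp (Primrec.fst.comp Primrec.fst)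
  · exact Primrec.eq.comp (Primrec.fst.comp (Primrec.snd.comp Primrec.snd)) (Primrec.const 2)
  · exact Primrec.list_cons.comp (Primrec.fst.comp (Primrec.snd.comp (Primrec.snd.comp
      (Primrec.snd.comp Primrec.snd)))) (Primrec.const [])

theorem primrec_newStN : Primrec (fun x : St × ℕ × ℕ => newStN x.1 x.2.1 x.2.2) := by
  unfold newStN
  refine Primrec.option_getD.comp (Primrec.option_map
    (Primrec.decode.comp (Primrec.snd.comp Primrec.snd)) ?_) Primrec.fst
  exact primrec_newSt.comp (Primrec.pair (Primrec.pair (Primrec.fst.comp Primrec.fst)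
    (Primrec.fst.comp (Primrec.snd.comp Primrec.fst))) Primrec.snd)

theorem PD_PW : PD (fun x : (St × ℕ) × Wit => PW x.1.1 x.1.2 x.2) := by
  unfold PW
  have hdat : Primrec (fun x : (St × ℕ) × Wit => dat x.1.2) :=
    primrec_dat.comp (Primrec.snd.comp Primrec.fst)
  refine PD.and ?_ ?_
  · exact PD_StartOK.comp (f := fun x : (St × ℕ) × Wit => (x.1.1.2, (dat x.1.2).2.1, x.2.1))
      (Primrec.pair (Primrec.snd.comp (Primrec.fst.comp Primrec.fst))
        (Primrec.pair (Primrec.fst.comp (Primrec.snd.comp hdat)) (Primrec.fst.comp Primrec.snd)))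
  · refine PD_WitOK.comp (f := fun x : (St × ℕ) × Wit => ((newJ x.1.1.1 (dat x.1.2).1 x.2.1,
      x.1.2, (dat x.1.2).2.2.1, (dat x.1.2).2.2.2, x.2.2) : WArg)) ?_
    refine Primrec.pair ?_ (Primrec.pair (Primrec.snd.comp Primrec.fst)
      (Primrec.pair (Primrec.fst.comp (Primrec.snd.comp (Primrec.snd.comp hdat)))
      (Primrec.pair (Primrec.snd.comp (Primrec.snd.comp (Primrec.snd.comp hdat)))
        (Primrec.snd.comp Primrec.snd))))
    exact primrec_newJ.comp (f := fun x : List (Code × Str) × Code × Option Str =>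
      newJ x.1 x.2.1 x.2.2) (g := fun x : (St × ℕ) × Wit => (x.1.1.1, (dat x.1.2).1, x.2.1))
      (Primrec.pair (Primrec.fst.comp (Primrec.fst.comp Primrec.fst))
        (Primrec.pair (Primrec.fst.comp hdat) (Primrec.fst.comp Primrec.snd)))

theorem PD_P : PD (fun x : St × ℕ × ℕ => P x.1 x.2.1 x.2.2) := by
  unfold P
  refine PD.bex (p := fun (x : St × ℕ × ℕ) (w : Wit) => PW x.1 x.2.1 w) ?_
    (primrec_toList.comp (Primrec.decode.comp (Primrec.snd.comp Primrec.snd)))
  exact PD_PW.comp (f := fun x : (St × ℕ × ℕ) × Wit => ((x.1.1, x.1.2.1), x.2))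
    (Primrec.pair (Primrec.pair (Primrec.fst.comp Primrec.fst)
      (Primrec.fst.comp (Primrec.snd.comp Primrec.fst))) Primrec.snd)

/-- The least witness at stage `s`. -/
noncomputable def wn (st : St) (s : ℕ) : ℕ := sInf {n | P st s n}

theorem wn_spec (st : St) (s : ℕ) : P st s (wn st s) := Nat.sInf_mem (exists_P st s)

theorem wn_least {st : St} {s n : ℕ} (h : n < wn st s) : ¬ P st s n := Nat.notMem_of_lt_sInf h

theorem wn_unique {st : St} {s n : ℕ} (h : P st s n) (h' : ∀ m < n, ¬ P st s m) :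
    n = wn st s := by
  rcases lt_trichotomy n (wn st s) with hlt | heq | hgt
  · exact absurd h (wn_least hlt)
  · exact heq
  · exact absurd (wn_spec st s) (h' _ hgt)

/-- The state at the beginning of stage `s`. -/
noncomputable def state : ℕ → St
  | 0 => ([], [])
  | s + 1 => newStN (state s) s (wn (state s) s)

/-- The sequence of least witnesses. -/
noncomputable def wseq (s : ℕ) : ℕ := wn (state s) s

/-- The state reached with a given list of witnesses. -/
def stL (ws : List ℕ) : St :=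
  (ws.foldl (fun (p : ℕ × St) n => (p.1 + 1, newStN p.2 p.1 n)) (0, ([], []))).2

theorem primrec_stL : Primrec stL := by
  unfold stL
  refine Primrec.snd.comp (Primrec.list_foldl (f := fun ws : List ℕ => ws)
    (g := fun _ => ((0, ([], [])) : ℕ × St))
    (h := fun (_ : List ℕ) (x : (ℕ × St) × ℕ) => (x.1.1 + 1, newStN x.1.2 x.1.1 x.2))
    Primrec.id (Primrec.const _) ?_)
  refine Primrec.pair ?_ ?_
  · exact Primrec.succ.comp (Primrec.fst.comp (Primrec.fst.comp Primrec.snd))
  · exact primrec_newStN.comp (f := fun x : St × ℕ × ℕ => newStN x.1 x.2.1 x.2.2)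
      (g := fun x : List ℕ × (ℕ × St) × ℕ => (x.2.1.2, x.2.1.1, x.2.2))
      (Primrec.pair (Primrec.snd.comp (Primrec.fst.comp Primrec.snd))
        (Primrec.pair (Primrec.fst.comp (Primrec.fst.comp Primrec.snd))
          (Primrec.snd.comp Primrec.snd)))

theorem stL_wseq (s : ℕ) : stL ((List.range s).map wseq) = state s := by
  have : ((List.range s).map wseq).foldl (fun (p : ℕ × St) n => (p.1 + 1, newStN p.2 p.1 n))
      (0, ([], [])) = (s, state s) := by
    induction s with
    | zero => rfl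
    | succ s ih =>
      rw [List.range_succ, List.map_append, List.foldl_append, ih]
      rfl
  unfold stL
  rw [this]

/-- The set of all strings enumerated in the construction. -/
def SS : Set Str := {f | ∃ s, f ∈ (state s).2}

/-- Correctness of a list of witnesses. -/
def GoodList (ws : List ℕ) : Prop :=
  (∀ i ∈ List.range ws.length, ∀ n ∈ List.range (ws.getD i 0), ¬ P (stL (ws.take i)) i n) ∧
  ¬ ∃ i ∈ List.range ws.length, ¬ P (stL (ws.take i)) i (ws.getD i 0)

theorem goodList_iff (ws : List ℕ) : GoodList ws ↔ ws = (List.range ws.length).map wseq := by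
  constructor
  · rintro ⟨h1, h2⟩
    push Not at h2
    have key : ∀ i, i ≤ ws.length → ws.take i = (List.range i).map wseq := by
      intro i
      induction i with
      | zero => intro _; simp
      | succ i ih =>
        intro hi
        have ih' := ih (by omega)
        have hlt : i < ws.length := by omega
        have hst : stL (ws.take i) = state i := by rw [ih', stL_wseq]
        have hP := h2 i (List.mem_range.2 hlt)
        have hN := h1 i (List.mem_range.2 hlt)
        rw [hst] at hP hN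
        have hw : ws.getD i 0 = wn (state i) i :=
          wn_unique hP (fun m hm => hN m (List.mem_range.2 hm))
        rw [List.take_succ_eq_append_getElem hlt, ih', List.range_succ, List.map_append]
        congr 1
        simp only [List.map_cons, List.map_nil, List.cons.injEq, and_true]
        rw [List.getD_eq_getElem _ _ hlt] at hw
        exact hw
    have := key ws.length le_rfl
    rwa [List.take_length] at this
  · intro h
    have hget : ∀ i, i < ws.length → ws.getD i 0 = wn (state i) i ∧ stL (ws.take i) = state i := by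
      intro i hi
      constructor
      · rw [h]
        rw [List.getD_eq_getElem _ _ (by simpa using hi)]
        simp [wseq]
      · have : ws.take i = (List.range i).map wseq := by
          rw [h, ← List.map_take, List.take_range, min_eq_left hi.le]
        rw [this, stL_wseq]
    constructor
    · intro i hi n hn
      obtain ⟨e1, e2⟩ := hget i (List.mem_range.1 hi)
      rw [e2]
      rw [e1] at hn
      exact wn_least (List.mem_range.1 hn)
    · push Not
      intro i hi
      obtain ⟨e1, e2⟩ := hget i (List.mem_range.1 hi)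
      rw [e1, e2]
      exact wn_spec _ _

theorem mem_SS_iff (f : Str) : f ∈ SS ↔ ∃ ws, GoodList ws ∧ f ∈ (stL ws).2 := by
  constructor
  · rintro ⟨s, hs⟩
    refine ⟨(List.range s).map wseq, ?_, ?_⟩
    · rw [goodList_iff]
      simp
    · rw [stL_wseq]
      exact hs
  · rintro ⟨ws, h1, h2⟩
    rw [goodList_iff] at h1
    rw [h1, stL_wseq] at h2
    exact ⟨_, h2⟩

/-- The semidecidable part of the definition of `SS`. -/
def SA (x : Str × List ℕ) : Prop :=
  (∀ i ∈ List.range x.2.length, ∀ n ∈ List.range (x.2.getD i 0),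
    ¬ P (stL (x.2.take i)) i n) ∧ x.1 ∈ (stL x.2).2

/-- The semidecidable part, with a negative occurrence, of the definition of `SS`. -/
def SB (x : Str × List ℕ) : Prop :=
  ∃ i ∈ List.range x.2.length, ¬ P (stL (x.2.take i)) i (x.2.getD i 0)

theorem primrecPred_mem_list {α β : Type} [Primcodable α] [Primcodable β] [DecidableEq β]
    {f : α → β} {l : α → List β} (hf : Primrec f) (hl : Primrec l) :
    PrimrecPred (fun a => f a ∈ l a) := by
  have h1 : PrimrecRel (fun (b : β) (x : β) => b = x) := Primrec.eq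
  have h2 : PrimrecRel (fun (L : List β) (x : β) => ∃ b ∈ L, b = x) := h1.exists_mem_list
  exact (h2.comp hl hf).of_eq (fun x => by simp)

theorem SD_SA : SD SA := by
  unfold SA
  refine SD.and ?_ (SD.of_primrec ?_)
  · refine SD.ball (p := fun (x : Str × List ℕ) i => ∀ n ∈ List.range (x.2.getD i 0),
      ¬ P (stL (x.2.take i)) i n) ?_
      (Primrec.list_range.comp (Primrec.list_length.comp Primrec.snd))
    refine SD.ball (p := fun (x : (Str × List ℕ) × ℕ) n => ¬ P (stL (x.1.2.take x.2)) x.2 n) ?_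
      (Primrec.list_range.comp ((Primrec.list_getD 0).comp (Primrec.snd.comp Primrec.fst)
        Primrec.snd))
    refine SD.comp (p := fun x : St × ℕ × ℕ => ¬ P x.1 x.2.1 x.2.2) PD_P
      (f := fun x : ((Str × List ℕ) × ℕ) × ℕ => (stL (x.1.1.2.take x.1.2), x.1.2, x.2)) ?_
    exact Primrec.pair (primrec_stL.comp (Primrec.list_take.comp (Primrec.snd.comp Primrec.fst)
      (Primrec.snd.comp (Primrec.fst.comp Primrec.fst))))
      (Primrec.pair (Primrec.snd.comp Primrec.fst) Primrec.snd)
  · exact primrecPred_mem_list Primrec.fst (Primrec.snd.comp (primrec_stL.comp Primrec.snd))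

theorem SD_SB : SD SB := by
  unfold SB
  refine SD.bex (p := fun (x : Str × List ℕ) i => ¬ P (stL (x.2.take i)) i (x.2.getD i 0)) ?_
    (Primrec.list_range.comp (Primrec.list_length.comp Primrec.snd))
  refine SD.comp (p := fun x : St × ℕ × ℕ => ¬ P x.1 x.2.1 x.2.2) PD_P
    (f := fun x : (Str × List ℕ) × ℕ => (stL (x.1.2.take x.2), x.2, x.1.2.getD x.2 0)) ?_
  exact Primrec.pair (primrec_stL.comp (Primrec.list_take.comp Primrec.snd
    (Primrec.snd.comp Primrec.fst)))
    (Primrec.pair Primrec.snd ((Primrec.list_getD 0).comp (Primrec.snd.comp Primrec.fst)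
      Primrec.snd))

theorem mem_SS_iff' (f : Str) : f ∈ SS ↔ ∃ ws : List ℕ, SA (f, ws) ∧ ¬ SB (f, ws) := by
  rw [mem_SS_iff]
  refine exists_congr fun ws => ?_
  unfold GoodList SA SB
  tauto

end Pool.Agent.H36.LFI
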