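import Mathlib

/-!
Definitions: 1-generic and weakly 2-generic sets, Turing degrees of sets, computable structures,
and degrees that are low for isomorphism.

Sets of natural numbers are identified with functions `ℕ → Bool`.
-/

namespace Pool.Agent.H36.LFI

/-- Finite binary strings. -/
abbrev Str := List Bool

/-- The initial segment of `X` of length `n`. -/
def ini (X : ℕ → Bool) (n : ℕ) : Str := (List.range n).map X

/-- `G` is 1-generic: for every c.e. set `W` of strings, some initial segment of `G` lies in `W`
or has no extension in `W`. -/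
def IsOneGeneric (G : ℕ → Bool) : Prop :=
  ∀ W : Set Str, REPred (fun σ => σ ∈ W) → ∃ n, ini G n ∈ W ∨ ∀ τ ∈ W, ¬ ini G n <+: τ

/-- The set `S` of strings is `Σ⁰₂`. -/
def IsSigma2 (S : Set Str) : Prop :=
  ∃ R : Str → ℕ → ℕ → Prop, ComputablePred (fun x : Str × ℕ × ℕ => R x.1 x.2.1 x.2.2) ∧
    ∀ σ, σ ∈ S ↔ ∃ a, ∀ b, R σ a b

/-- `G` is weakly 2-generic: it meets every dense `Σ⁰₂` set of strings. -/
def IsWeaklyTwoGeneric (G : ℕ → Bool) : Prop :=
  ∀ S : Set Str, IsSigma2 S → (∀ σ, ∃ τ ∈ S, σ <+: τ) → ∃ n, ini G n ∈ S

/-- The characteristic function of the set `X`, as an oracle. -/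
def chi (X : ℕ → Bool) : ℕ →. ℕ := fun n => Part.some (X n).toNat

/-- The Turing degree of the partial function `f`. -/
def degF (f : ℕ →. ℕ) : TuringDegree := toAntisymmetrization TuringReducible f

/-- The Turing degree of the set `X`. -/
def deg (X : ℕ → Bool) : TuringDegree := degF (chi X)

/-- The degree `d` is properly 1-generic: it contains a 1-generic set, but no weakly 2-generic
set. -/
def IsProperlyOneGeneric (d : TuringDegree) : Prop :=
  (∃ G, IsOneGeneric G ∧ deg G = d) ∧ ∀ Y, IsWeaklyTwoGeneric Y → deg Y ≠ d

/-- A computable structure for the language with relation symbols `R₀, R₁, …` of arities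
`relAr 0, relAr 1, …` and function symbols `F₀, F₁, …` of arities `funAr 0, funAr 1, …`: its
domain is a computable set of natural numbers, and its relations and functions are uniformly
computable (the values on tuples of the wrong length, or not in the domain, play no role). -/
structure CompStr (relAr funAr : ℕ → ℕ) where
  dom : Set ℕ
  rel : ℕ → List ℕ → Prop
  fn : ℕ → List ℕ → ℕ
  dom_computable : ComputablePred (fun a => a ∈ dom)
  rel_computable : ComputablePred (fun x : ℕ × List ℕ => rel x.1 x.2)
  fn_computable : Computable (fun x : ℕ × List ℕ => fn x.1 x.2)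
  fn_mem : ∀ i l, l.length = funAr i → (∀ a ∈ l, a ∈ dom) → fn i l ∈ dom

/-- `f` is an isomorphism from `M` onto `N` (its values outside the domain of `M` play no
role). -/
def IsIso {relAr funAr : ℕ → ℕ} (M N : CompStr relAr funAr) (f : ℕ → ℕ) : Prop :=
  Set.BijOn f M.dom N.dom ∧
  (∀ i l, l.length = relAr i → (∀ a ∈ l, a ∈ M.dom) → (M.rel i l ↔ N.rel i (l.map f))) ∧
  (∀ i l, l.length = funAr i → (∀ a ∈ l, a ∈ M.dom) → f (M.fn i l) = N.fn i (l.map f))

/-- The degree `d` is low for isomorphism: any two computable structures for the same computable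
language with a `d`-computable isomorphism have a computable isomorphism. -/
def IsLowForIsomorphism (d : TuringDegree) : Prop :=
  ∀ relAr funAr : ℕ → ℕ, Computable relAr → Computable funAr → ∀ M N : CompStr relAr funAr,
    (∃ f : ℕ → ℕ, degF (f : ℕ →. ℕ) ≤ d ∧ IsIso M N f) → ∃ f : ℕ → ℕ, Computable f ∧ IsIso M N f

end Pool.Agent.H36.LFI
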