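import Pool.Agent.H36.LFI.Alive

/-!
The generic path is 1-generic and is not computable from any weakly 2-generic set.
-/

namespace Pool.Agent.H36.LFI

open Encodable
open Nat.Partrec (Code)

theorem oneGeneric_of_req {X : ℕ → Bool} (h : ∀ e : Code, Req e X) : IsOneGeneric X := by
  intro W hW
  have hQ : SD (fun x : ℕ × Str => x.1 = 0 ∧ x.2 ∈ W) :=
    SD.and (SD.of_primrec (Primrec.eq.comp Primrec.fst (Primrec.const 0)))
      ((SD.of_re hW).comp Primrec.snd)
  obtain ⟨e, he⟩ := hQ.code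
  have hg : ∀ k τ, Goal e k τ ↔ (k = 0 ∧ τ ∈ W) := fun k τ => (he (k, τ)).symm
  have hlt : ∀ τ₀ k x, x ∈ ch (e, τ₀) (k + 1) → Goal e k x := by
    intro τ₀ k x hx
    have hd := ch_dom_of_succ (Part.dom_iff_mem.2 ⟨x, hx⟩)
    exact (ch_succ_prefix (Part.get_mem hd) hx).2
  rcases h e with ⟨τ₀, htot⟩ | ⟨τ₀, k, x, hpre, hx, hstuck⟩
  · exfalso
    have := hlt τ₀ 1 _ (Part.get_mem (htot 2))
    rw [hg] at this
    exact absurd this.1 (by norm_num)
  · refine ⟨x.length, ?_⟩
    have hini : ini X x.length = x := hpre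
    rw [hini]
    rcases k with _ | k
    · right
      intro τ hτ hxτ
      apply hstuck
      rw [nxt_dom]
      exact ⟨τ, hxτ, (hg 0 τ).2 ⟨rfl, hτ⟩⟩
    · left
      exact ((hg _ _).1 (hlt τ₀ k x hx)).2

theorem not_computable_of_oneGeneric {X : ℕ → Bool} (h : IsOneGeneric X) : ¬ Computable X := by
  intro hX
  have hW : SD (fun τ : Str => τ ∈ {τ : Str | ¬ Pre τ X}) := by
    refine (SD.ex (p := fun (τ : Str) (y : ℕ × Bool) => (y.1 < τ.length ∧ τ[y.1]? ≠ some y.2) ∧
      y.2 ∈ (Part.some (X y.1))) (SD.and (SD.of_primrec (PrimrecPred.and ?_ ?_)) ?_)).of_eq ?_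
    · exact Primrec.nat_lt.comp (Primrec.fst.comp Primrec.snd)
        (Primrec.list_length.comp Primrec.fst)
    · exact (Primrec.eq.comp (Primrec.list_getElem?.comp Primrec.fst
        (Primrec.fst.comp Primrec.snd))
        (Primrec.option_some.comp (Primrec.snd.comp Primrec.snd))).not
    · exact (SD.graph hX.partrec).comp Primrec.snd
    · intro τ
      constructor
      · rintro ⟨⟨i, b⟩, ⟨hi, hb⟩, hXb⟩ hpre
        simp only [Part.mem_some_iff] at hXb
        apply hb
        rw [hXb]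
        exact Pre.getElem? hpre hi
      · intro hτ
        by_contra hc
        push Not at hc
        apply hτ
        apply pre_of_getElem?
        intro i hi
        by_contra hne
        exact hc (i, X i) ⟨hi, hne⟩ (Part.mem_some _)
  obtain ⟨n, hn | hn⟩ := h {τ : Str | ¬ Pre τ X} hW.to_re
  · exact hn (pre_ini X n)
  · refine hn (ini X n ++ [!X n]) ?_ (List.prefix_append _ _)
    intro hpre
    have hl : n < (ini X n ++ [!X n]).length := by simp [ini_length]
    have := Pre.getElem? hpre hl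
    rw [List.getElem?_append_right (by rw [ini_length]), ini_length] at this
    simp at this

/-- The string `σ` is an output of the functional `Ψ` on `τ`. -/
def Out (Ψ : Str → ℕ →. ℕ) (τ σ : Str) : Prop :=
  ∀ i ∈ List.range σ.length, (σ.getD i false).toNat ∈ Ψ τ i

theorem SD_Out {Ψ : Str → ℕ →. ℕ} (hΨ : Partrec₂ Ψ) : SD (fun x : Str × Str => Out Ψ x.1 x.2) := by
  unfold Out
  refine SD.ball (p := fun (x : Str × Str) i => (x.2.getD i false).toNat ∈ Ψ x.1 i) ?_
    (Primrec.list_range.comp (Primrec.list_length.comp Primrec.snd))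
  refine (SD.graph hΨ).comp (f := fun x : (Str × Str) × ℕ =>
    ((x.1.1, x.2), (x.1.2.getD x.2 false).toNat)) ?_
  refine Primrec.pair (Primrec.pair (Primrec.fst.comp Primrec.fst) Primrec.snd) ?_
  exact (Primrec.dom_finite Bool.toNat).comp
    ((Primrec.list_getD false).comp (Primrec.snd.comp Primrec.fst) Primrec.snd)

theorem toNat_inj {a b : Bool} (h : a.toNat = b.toNat) : a = b := by
  cases a <;> cases b <;> simp_all

theorem out_compat {Ψ : Str → ℕ →. ℕ} (hm : Mono Ψ) {τ τ' σ σ' : Str} (h : Out Ψ τ σ)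
    (h' : Out Ψ τ' σ') (hτ : τ <+: τ') : Compat σ σ' := by
  have key : ∀ i, i < σ.length → i < σ'.length → σ[i]? = σ'[i]? := by
    intro i hi hi'
    have h1 := hm.pfx hτ (h i (List.mem_range.2 hi))
    have h2 := h' i (List.mem_range.2 hi')
    have h3 := toNat_inj (Part.mem_unique h1 h2)
    rw [List.getD_eq_getElem _ _ hi, List.getD_eq_getElem _ _ hi'] at h3
    rw [List.getElem?_eq_getElem hi, List.getElem?_eq_getElem hi', h3]
  rcases le_total σ.length σ'.length with hl | hl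
  · left
    rw [List.prefix_iff_eq_take]
    apply List.ext_getElem?
    intro i
    rw [List.getElem?_take]
    by_cases hi : i < σ.length
    · rw [if_pos hi]
      exact key i hi (lt_of_lt_of_le hi hl)
    · rw [if_neg hi, List.getElem?_eq_none_iff]
      omega
  · right
    rw [List.prefix_iff_eq_take]
    apply List.ext_getElem?
    intro i
    rw [List.getElem?_take]
    by_cases hi : i < σ'.length
    · rw [if_pos hi]
      exact (key i (lt_of_lt_of_le hi hl) hi).symm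
    · rw [if_neg hi, List.getElem?_eq_none_iff]
      omega

/-- No extension of `ρ` has long outputs. -/
def D1 (c : Code) (ρ : Str) : Prop :=
  ∃ m : ℕ, ¬ ∃ x : Str × Str, ρ <+: x.1 ∧ Ax c x.1 x.2 ∧ m ≤ x.2.length

/-- There is no splitting above `ρ`. -/
def D2 (c : Code) (ρ : Str) : Prop :=
  ¬ ∃ x : (Str × Str) × (Str × Str), ρ <+: x.1.1 ∧ ρ <+: x.2.1 ∧ Ax c x.1.1 x.1.2 ∧
    Ax c x.2.1 x.2.2 ∧ ¬ Compat x.1.2 x.2.2

/-- The output on `ρ` meets `SS`. -/
def D3 (c : Code) (ρ : Str) : Prop := ∃ σ ∈ SS, Ax c ρ σ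

theorem SD_Ax_comp {α : Type} [Primcodable α] (c : Code) {f g : α → Str} (hf : Primrec f)
    (hg : Primrec g) : SD (fun a => Ax c (f a) (g a)) :=
  SD_Ax.comp (f := fun a => (c, f a, g a)) (Primrec.pair (Primrec.const c) (Primrec.pair hf hg))

theorem Sig2_D1 (c : Code) : Sig2 (D1 c) := by
  refine Sig2.of_ex (β := ℕ) (A := fun _ => True)
    (B := fun y : Str × ℕ => ∃ x : Str × Str, y.1 <+: x.1 ∧ Ax c x.1 x.2 ∧ y.2 ≤ x.2.length)
    (SD.of_primrec ?_) ?_ ?_
  · exact (Primrec.eq.comp (Primrec.const 0) (Primrec.const 0)).of_eq (fun _ => by simp)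
  · refine SD.ex (p := fun (y : Str × ℕ) (x : Str × Str) => y.1 <+: x.1 ∧ Ax c x.1 x.2 ∧
      y.2 ≤ x.2.length) (SD.and (SD.of_primrec ?_) (SD.and ?_ (SD.of_primrec ?_)))
    · exact primrecPred_prefix (Primrec.fst.comp Primrec.fst) (Primrec.fst.comp Primrec.snd)
    · exact SD_Ax_comp c (Primrec.fst.comp Primrec.snd) (Primrec.snd.comp Primrec.snd)
    · exact Primrec.nat_le.comp (Primrec.snd.comp Primrec.fst)
        (Primrec.list_length.comp (Primrec.snd.comp Primrec.snd))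
  · intro ρ
    unfold D1
    simp only [true_and]

theorem Sig2_D2 (c : Code) : Sig2 (D2 c) := by
  refine Sig2.of_sd_not ?_
  refine (SD.ex (p := fun (ρ : Str) (x : (Str × Str) × (Str × Str)) => ρ <+: x.1.1 ∧
    ρ <+: x.2.1 ∧ Ax c x.1.1 x.1.2 ∧ Ax c x.2.1 x.2.2 ∧ ¬ Compat x.1.2 x.2.2)
    (SD.and (SD.of_primrec ?_) (SD.and (SD.of_primrec ?_) (SD.and ?_ (SD.and ?_
      (SD.of_primrec (PrimrecPred.not ?_))))))).of_eq (fun ρ => by unfold D2; rw [not_not])
  · exact primrecPred_prefix Primrec.fst (Primrec.fst.comp (Primrec.fst.comp Primrec.snd))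
  · exact primrecPred_prefix Primrec.fst (Primrec.fst.comp (Primrec.snd.comp Primrec.snd))
  · exact SD_Ax_comp c (Primrec.fst.comp (Primrec.fst.comp Primrec.snd))
      (Primrec.snd.comp (Primrec.fst.comp Primrec.snd))
  · exact SD_Ax_comp c (Primrec.fst.comp (Primrec.snd.comp Primrec.snd))
      (Primrec.snd.comp (Primrec.snd.comp Primrec.snd))
  · exact primrecPred_compat (Primrec.snd.comp (Primrec.fst.comp Primrec.snd))
      (Primrec.snd.comp (Primrec.snd.comp Primrec.snd))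

theorem Sig2_D3 (c : Code) : Sig2 (D3 c) := by
  refine Sig2.of_ex (β := Str × List ℕ)
    (A := fun y : Str × (Str × List ℕ) => SA y.2 ∧ Ax c y.1 y.2.1)
    (B := fun y : Str × (Str × List ℕ) => SB y.2)
    (SD.and (SD_SA.comp Primrec.snd)
      (SD_Ax_comp c Primrec.fst (Primrec.fst.comp Primrec.snd))) (SD_SB.comp Primrec.snd) ?_
  intro ρ
  unfold D3
  constructor
  · rintro ⟨σ, hσ, hAx⟩
    obtain ⟨ws, h1, h2⟩ := (mem_SS_iff' σ).1 hσ
    exact ⟨(σ, ws), ⟨h1, hAx⟩, h2⟩
  · rintro ⟨⟨σ, ws⟩, ⟨h1, hAx⟩, h2⟩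
    exact ⟨σ, (mem_SS_iff' σ).2 ⟨ws, h1, h2⟩, hAx⟩

theorem isSigma2_of_Sig2 {S : Set Str} (h : Sig2 (fun σ => σ ∈ S)) : IsSigma2 S := by
  obtain ⟨R, hR, e⟩ := h.normal
  exact ⟨R, hR.computablePred, e⟩

/-- Density of the set of strings which prevent the functional `c` from computing the generic
path. -/
theorem dense_D {Ψ : Str → ℕ →. ℕ} (hm : Mono Ψ) {c : Code}
    (hc : ∀ τ σ, Ax c τ σ ↔ Out Ψ τ σ) (ρ : Str) :
    ∃ τ ∈ {τ : Str | D1 c τ ∨ D2 c τ ∨ D3 c τ}, ρ <+: τ := by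
  obtain ⟨s, hs⟩ := dat_surj (default, default, c, ρ)
  have h := (wt_PW s).2
  unfold WitOK at h
  rw [hs] at h
  simp only at h
  rcases h with ⟨_, h1, h2⟩ | ⟨_, h1, h2⟩ | ⟨hk, h1, h2, _⟩ | ⟨_, h1, h2, h3, h4⟩
  · refine ⟨_, Or.inl ⟨(wt s).2.2.2.2.2.2, ?_⟩, h1⟩
    rintro ⟨x, g1, g2, g3⟩
    exact absurd (h2 x g1 g2) (by omega)
  · refine ⟨_, Or.inr (Or.inl ?_), h1⟩
    rintro ⟨x, g1, g2, g3, g4, g5⟩
    exact g5 (h2 x g1 g2 g3 g4)
  · exact ⟨_, Or.inr (Or.inr ⟨(wt s).2.2.2.1, mem_SS_iff_wt.2 ⟨s, hk, rfl⟩, ⟨_, h2⟩⟩), h1⟩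
  · exact absurd (out_compat hm ((hc _ _).1 ⟨_, h1⟩) ((hc _ _).1 ⟨_, h2⟩) h3) h4

theorem exists_out {X Y : ℕ → Bool} {Ψ : Str → ℕ →. ℕ} (hm : Mono Ψ)
    (hΨ : ∀ n v, v ∈ chi X n ↔ ∃ k, v ∈ Ψ (ini Y k) n) (n m : ℕ) :
    ∃ k, n ≤ k ∧ Out Ψ (ini Y k) (ini X m) := by
  induction m with
  | zero => exact ⟨n, le_rfl, by intro i hi; simp [ini] at hi⟩
  | succ m ih =>
    obtain ⟨k, hk, ho⟩ := ih
    obtain ⟨k', hk'⟩ := (hΨ m (X m).toNat).1 (Part.mem_some _)
    refine ⟨max k k', le_trans hk (le_max_left _ _), ?_⟩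
    intro i hi
    have hi' : i < m + 1 := by simpa [ini_length] using hi
    have hg : (ini X (m + 1)).getD i false = X i := by
      rw [List.getD_eq_getElem?_getD, ini_getElem?, if_pos hi']
      rfl
    rw [hg]
    rcases Nat.lt_succ_iff_lt_or_eq.1 hi' with h | h
    · have h1 := ho i (List.mem_range.2 (by rw [ini_length]; exact h))
      have hg' : (ini X m).getD i false = X i := by
        rw [List.getD_eq_getElem?_getD, ini_getElem?, if_pos h]
        rfl
      rw [hg'] at h1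
      exact mono_ini hm Y (le_max_left _ _) h1
    · subst h
      exact mono_ini hm Y (le_max_right _ _) hk'

theorem not_below {X : ℕ → Bool} (hav : ∀ f ∈ SS, ¬ Pre f X) (hX : ¬ Computable X)
    {Y : ℕ → Bool} (hY : IsWeaklyTwoGeneric Y) : ¬ Nat.RecursiveIn {chi Y} (chi X) := by
  intro hrec
  obtain ⟨Ψ, hΨ, hm, hval⟩ := exists_functional Y hrec
  obtain ⟨c, hc⟩ := (SD_Out hΨ).code
  have hc' : ∀ τ σ, Ax c τ σ ↔ Out Ψ τ σ := fun τ σ => (hc (τ, σ)).symm
  obtain ⟨n, hn⟩ := hY {τ : Str | D1 c τ ∨ D2 c τ ∨ D3 c τ}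
    (isSigma2_of_Sig2 ((Sig2_D1 c).or ((Sig2_D2 c).or (Sig2_D3 c)))) (dense_D hm hc')
  rcases hn with ⟨m, hm'⟩ | hn | ⟨σ, hσ, hAx⟩
  · obtain ⟨k, hk, ho⟩ := exists_out hm hval n m
    exact hm' ⟨(ini Y k, ini X m), ini_prefix Y hk, (hc' _ _).2 ho, by rw [ini_length]⟩
  · apply hX
    have key : ∀ (i : ℕ) (b : Bool), X i = b ↔ ∃ x : Str × Str, ini Y n <+: x.1 ∧ Ax c x.1 x.2 ∧
        x.2[i]? = some b := by
      intro i b
      obtain ⟨k, hk, ho⟩ := exists_out hm hval n (i + 1)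
      constructor
      · rintro rfl
        refine ⟨(ini Y k, ini X (i + 1)), ini_prefix Y hk, (hc' _ _).2 ho, ?_⟩
        rw [ini_getElem?, if_pos (Nat.lt_succ_self i)]
      · rintro ⟨x, h1, h2, h3⟩
        by_contra hne
        apply hn
        refine ⟨(x, (ini Y k, ini X (i + 1))), h1, ini_prefix Y hk, h2, (hc' _ _).2 ho, ?_⟩
        intro hcomp
        have h4 : (ini X (i + 1))[i]? = some (X i) := by
          rw [ini_getElem?, if_pos (Nat.lt_succ_self i)]
        have hi : i < x.2.length := (List.getElem?_eq_some_iff.1 h3).1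
        have hi' : i < (ini X (i + 1)).length := (List.getElem?_eq_some_iff.1 h4).1
        rw [List.getElem?_eq_getElem hi, Option.some.injEq] at h3
        rw [List.getElem?_eq_getElem hi', Option.some.injEq] at h4
        rcases hcomp with h | h
        · have := h.getElem hi
          exact hne (by rw [← h4, ← h3, this])
        · have := h.getElem hi'
          exact hne (by rw [← h4, ← h3, this])
    have hsd : ∀ b : Bool, SD (fun i : ℕ => X i = b) := by
      intro b
      refine (SD.ex (p := fun (i : ℕ) (x : Str × Str) => ini Y n <+: x.1 ∧ Ax c x.1 x.2 ∧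
        x.2[i]? = some b) (SD.and (SD.of_primrec ?_) (SD.and ?_ (SD.of_primrec ?_)))).of_eq
        (fun i => (key i b).symm)
      · exact primrecPred_prefix (Primrec.const _) (Primrec.fst.comp Primrec.snd)
      · exact SD_Ax_comp c (Primrec.fst.comp Primrec.snd) (Primrec.snd.comp Primrec.snd)
      · exact Primrec.eq.comp (Primrec.list_getElem?.comp (Primrec.snd.comp Primrec.snd)
          Primrec.fst) (Primrec.const _)
    have hcp : ComputablePred (fun i : ℕ => X i = true) := by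
      rw [ComputablePred.computable_iff_re_compl_re']
      refine ⟨(hsd true).to_re, ((hsd false).of_eq fun i => ?_).to_re⟩
      simp
    have := ComputablePred.decide hcp
    refine this.of_eq fun i => ?_
    simp
  · refine hav σ hσ (pre_of_getElem? fun i hi => ?_)
    have h1 := ((hc' _ _).1 hAx) i (List.mem_range.2 hi)
    have h2 := (hval i _).2 ⟨n, h1⟩
    have h3 : (σ.getD i false).toNat = (X i).toNat := by
      simpa [chi] using h2
    rw [List.getElem?_eq_getElem hi]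
    rw [List.getD_eq_getElem _ _ hi] at h3
    rw [toNat_inj h3]

end Pool.Agent.H36.LFI
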