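import Pool.Agent.H36.LFI.Generic

/-!
The generic path is low for isomorphism.
-/

namespace Pool.Agent.H36.LFI

open Encodable
open Nat.Partrec (Code)

/-- A total function with a semidecidable graph is computable. -/
theorem computable_of_graph {α β : Type} [Primcodable α] [Primcodable β] {f : α → β}
    (h : SD (fun x : α × β => x.2 = f x.1)) : Computable f := by
  classical
  obtain ⟨q, hq, e⟩ := h
  have h1 : Primrec₂ (fun (a : α) (n : ℕ) => (decode (α := β) n.unpair.1).bind fun b =>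
      if q (a, b) n.unpair.2 then some b else none) := by
    refine Primrec.option_bind (Primrec.decode.comp
      (Primrec.fst.comp (Primrec.unpair.comp Primrec.snd))) ?_
    refine Primrec.ite ?_ (Primrec.option_some.comp Primrec.snd) (Primrec.const none)
    exact hq.comp (Primrec.pair (Primrec.fst.comp Primrec.fst) Primrec.snd)
      (Primrec.snd.comp (Primrec.unpair.comp (Primrec.snd.comp Primrec.fst)))
  have h2 := Partrec.rfindOpt h1.to_comp
  refine h2.of_eq_tot fun a => ?_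
  have hs : ∀ (n : ℕ) (b : β), b ∈ ((decode (α := β) n.unpair.1).bind fun b =>
      if q (a, b) n.unpair.2 then some b else none) → b = f a := by
    intro n b hb
    rw [Option.mem_def, Option.bind_eq_some_iff] at hb
    obtain ⟨b', _, hb⟩ := hb
    split_ifs at hb with hc
    · rw [Option.some.injEq] at hb
      subst hb
      exact (e (a, b')).2 ⟨_, hc⟩
  have hdom : (Nat.rfindOpt fun n => (decode (α := β) n.unpair.1).bind fun b =>
      if q (a, b) n.unpair.2 then some b else none).Dom := by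
    rw [Nat.rfindOpt_dom]
    obtain ⟨t, ht⟩ := (e (a, f a)).1 rfl
    refine ⟨Nat.pair (encode (f a)) t, f a, ?_⟩
    simp only [Nat.unpair_pair, encodek, Option.bind_some]
    rw [if_pos ht]
    rfl
  have hmem := Part.get_mem hdom
  obtain ⟨n, hn⟩ := Nat.rfindOpt_spec hmem
  rwa [hs n _ hn] at hmem

variable {relAr funAr : ℕ → ℕ}

/-- The checks number `(n, i, l)` of the finite approximation `g` of a map between `M`
and `N`. -/
def Chk (M N : CompStr relAr funAr) (x : ℕ × ℕ × List ℕ) (g : List ℕ) : Prop :=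
  x.1 < g.length ∧ (∀ a ∈ x.2.2, a < g.length) ∧ (∃ v, v = M.fn x.2.1 x.2.2 ∧ v < g.length) ∧
  (x.1 ∉ M.dom ∨ g.getD x.1 0 ∈ N.dom) ∧
  (x.1 ∉ N.dom ∨ ∃ a ∈ List.range g.length, a ∈ M.dom ∧ g.getD a 0 = x.1) ∧
  (∀ a ∈ x.2.2, a ∉ M.dom ∨ x.1 ∉ M.dom ∨ g.getD a 0 ≠ g.getD x.1 0 ∨ a = x.1) ∧
  ((∃ v, v = relAr x.2.1 ∧ x.2.2.length ≠ v) ∨ (∃ a ∈ x.2.2, a ∉ M.dom) ∨
    ((M.rel x.2.1 x.2.2 ∧ N.rel x.2.1 (x.2.2.map fun a => g.getD a 0)) ∨
    (¬ M.rel x.2.1 x.2.2 ∧ ¬ N.rel x.2.1 (x.2.2.map fun a => g.getD a 0)))) ∧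
  ((∃ v, v = funAr x.2.1 ∧ x.2.2.length ≠ v) ∨ (∃ a ∈ x.2.2, a ∉ M.dom) ∨
    ∃ v : ℕ × ℕ, v.1 = M.fn x.2.1 x.2.2 ∧ v.2 = N.fn x.2.1 (x.2.2.map fun a => g.getD a 0) ∧
      g.getD v.1 0 = v.2)

/-- Graphs of computable functions are semidecidable. -/
theorem SD_graph_comp {α β γ : Type} [Primcodable α] [Primcodable β] [Primcodable γ]
    {f : β → γ} (hf : Computable f) {u : α → γ} {v : α → β} (hu : Primrec u) (hv : Primrec v) :
    SD (fun a => u a = f (v a)) := by
  refine ((SD.graph hf.partrec).comp (f := fun a => (v a, u a)) (Primrec.pair hv hu)).of_eq ?_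
  intro a
  simp

theorem SD_Chk (hr : Computable relAr) (hf : Computable funAr) (M N : CompStr relAr funAr) :
    SD (fun y : (ℕ × ℕ × List ℕ) × List ℕ => Chk M N y.1 y.2) := by
  have hx1 : Primrec (fun y : (ℕ × ℕ × List ℕ) × List ℕ => y.1.1) :=
    Primrec.fst.comp Primrec.fst
  have hi : Primrec (fun y : (ℕ × ℕ × List ℕ) × List ℕ => y.1.2.1) :=
    Primrec.fst.comp (Primrec.snd.comp Primrec.fst)
  have hl : Primrec (fun y : (ℕ × ℕ × List ℕ) × List ℕ => y.1.2.2) :=
    Primrec.snd.comp (Primrec.snd.comp Primrec.fst)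
  have hg : Primrec (fun y : (ℕ × ℕ × List ℕ) × List ℕ => y.2) := Primrec.snd
  have hgl : Primrec (fun y : (ℕ × ℕ × List ℕ) × List ℕ => y.2.length) :=
    Primrec.list_length.comp hg
  have hil : Primrec (fun y : (ℕ × ℕ × List ℕ) × List ℕ => (y.1.2.1, y.1.2.2)) :=
    Primrec.pair hi hl
  have hmap : Primrec (fun y : (ℕ × ℕ × List ℕ) × List ℕ =>
      (y.1.2.1, y.1.2.2.map fun a => y.2.getD a 0)) := by
    refine Primrec.pair hi (Primrec.list_map hl ?_)
    exact (Primrec.list_getD 0).comp (hg.comp Primrec.fst) Primrec.snd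
  have hMd : ∀ {β : Type} [Primcodable β] {u : β → ℕ}, Primrec u →
      SD (fun b => u b ∈ M.dom) := fun hu => (SD.of_computable M.dom_computable).comp hu
  have hMn : ∀ {β : Type} [Primcodable β] {u : β → ℕ}, Primrec u →
      SD (fun b => u b ∉ M.dom) := fun hu => (SD.of_computable_not M.dom_computable).comp hu
  have hNd : ∀ {β : Type} [Primcodable β] {u : β → ℕ}, Primrec u →
      SD (fun b => u b ∈ N.dom) := fun hu => (SD.of_computable N.dom_computable).comp hu
  have hNn : ∀ {β : Type} [Primcodable β] {u : β → ℕ}, Primrec u →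
      SD (fun b => u b ∉ N.dom) := fun hu => (SD.of_computable_not N.dom_computable).comp hu
  have hbad : SD (fun y : (ℕ × ℕ × List ℕ) × List ℕ => ∃ a ∈ y.1.2.2, a ∉ M.dom) :=
    SD.bex (p := fun (_ : (ℕ × ℕ × List ℕ) × List ℕ) a => a ∉ M.dom) (hMn Primrec.snd) hl
  have har : ∀ {k : ℕ → ℕ}, Computable k →
      SD (fun y : (ℕ × ℕ × List ℕ) × List ℕ => ∃ v, v = k y.1.2.1 ∧ y.1.2.2.length ≠ v) := by
    intro k hk
    refine SD.ex (p := fun (y : (ℕ × ℕ × List ℕ) × List ℕ) v => v = k y.1.2.1 ∧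
      y.1.2.2.length ≠ v) (SD.and (SD_graph_comp hk Primrec.snd (hi.comp Primrec.fst))
      (SD.of_primrec (PrimrecPred.not ?_)))
    exact Primrec.eq.comp (Primrec.list_length.comp (hl.comp Primrec.fst)) Primrec.snd
  unfold Chk
  refine SD.and (SD.of_primrec (Primrec.nat_lt.comp hx1 hgl)) (SD.and ?_ (SD.and ?_ (SD.and ?_
    (SD.and ?_ (SD.and ?_ (SD.and ?_ ?_))))))
  · refine SD.ball (p := fun (y : (ℕ × ℕ × List ℕ) × List ℕ) a => a < y.2.length)
      (SD.of_primrec ?_) hl
    exact Primrec.nat_lt.comp Primrec.snd (hgl.comp Primrec.fst)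
  · refine SD.ex (p := fun (y : (ℕ × ℕ × List ℕ) × List ℕ) v => v = M.fn y.1.2.1 y.1.2.2 ∧
      v < y.2.length) (SD.and ?_ (SD.of_primrec ?_))
    · exact SD_graph_comp M.fn_computable Primrec.snd (hil.comp Primrec.fst)
    · exact Primrec.nat_lt.comp Primrec.snd (hgl.comp Primrec.fst)
  · exact SD.or (hMn hx1) (hNd ((Primrec.list_getD 0).comp hg hx1))
  · refine SD.or (hNn hx1) (SD.bex (p := fun (y : (ℕ × ℕ × List ℕ) × List ℕ) a =>
      a ∈ M.dom ∧ y.2.getD a 0 = y.1.1) (SD.and (hMd Primrec.snd) (SD.of_primrec ?_))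
      (Primrec.list_range.comp hgl))
    exact Primrec.eq.comp ((Primrec.list_getD 0).comp (hg.comp Primrec.fst) Primrec.snd)
      (hx1.comp Primrec.fst)
  · refine SD.ball (p := fun (y : (ℕ × ℕ × List ℕ) × List ℕ) a => a ∉ M.dom ∨ y.1.1 ∉ M.dom ∨
      y.2.getD a 0 ≠ y.2.getD y.1.1 0 ∨ a = y.1.1) (SD.or (hMn Primrec.snd)
      (SD.or (hMn (hx1.comp Primrec.fst)) (SD.or (SD.of_primrec (PrimrecPred.not ?_))
        (SD.of_primrec ?_)))) hl
    · exact Primrec.eq.comp ((Primrec.list_getD 0).comp (hg.comp Primrec.fst) Primrec.snd)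
        ((Primrec.list_getD 0).comp (hg.comp Primrec.fst) (hx1.comp Primrec.fst))
    · exact Primrec.eq.comp Primrec.snd (hx1.comp Primrec.fst)
  · refine SD.or (har hr) (SD.or hbad (SD.or (SD.and ?_ ?_) (SD.and ?_ ?_)))
    · exact (SD.of_computable M.rel_computable).comp hil
    · exact (SD.of_computable N.rel_computable).comp hmap
    · exact (SD.of_computable_not M.rel_computable).comp hil
    · exact (SD.of_computable_not N.rel_computable).comp hmap
  · refine SD.or (har hf) (SD.or hbad (SD.ex (p := fun (y : (ℕ × ℕ × List ℕ) × List ℕ)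
      (v : ℕ × ℕ) => v.1 = M.fn y.1.2.1 y.1.2.2 ∧
      v.2 = N.fn y.1.2.1 (y.1.2.2.map fun a => y.2.getD a 0) ∧ y.2.getD v.1 0 = v.2)
      (SD.and ?_ (SD.and ?_ (SD.of_primrec ?_)))))
    · exact SD_graph_comp M.fn_computable (Primrec.fst.comp Primrec.snd) (hil.comp Primrec.fst)
    · exact SD_graph_comp N.fn_computable (Primrec.snd.comp Primrec.snd) (hmap.comp Primrec.fst)
    · exact Primrec.eq.comp ((Primrec.list_getD 0).comp (hg.comp Primrec.fst)
        (Primrec.fst.comp Primrec.snd)) (Primrec.snd.comp Primrec.snd)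

/-- The goals of the search for an isomorphism. -/
def Gl (Ψ : Str → ℕ →. ℕ) (M N : CompStr relAr funAr) (y : ℕ × Str) : Prop :=
  ∃ g : List ℕ, (∀ j ∈ List.range g.length, g.getD j 0 ∈ Ψ y.2 j) ∧
    Chk M N ((decode (α := ℕ × ℕ × List ℕ) y.1).getD default) g

theorem SD_Gl (hr : Computable relAr) (hf : Computable funAr) {Ψ : Str → ℕ →. ℕ}
    (hΨ : Partrec₂ Ψ) (M N : CompStr relAr funAr) : SD (Gl Ψ M N) := by
  unfold Gl
  refine SD.ex (p := fun (y : ℕ × Str) (g : List ℕ) =>
    (∀ j ∈ List.range g.length, g.getD j 0 ∈ Ψ y.2 j) ∧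
    Chk M N ((decode (α := ℕ × ℕ × List ℕ) y.1).getD default) g) (SD.and ?_ ?_)
  · refine SD.ball (p := fun (z : (ℕ × Str) × List ℕ) j => z.2.getD j 0 ∈ Ψ z.1.2 j) ?_
      (Primrec.list_range.comp (Primrec.list_length.comp Primrec.snd))
    refine (SD.graph hΨ).comp (f := fun z : ((ℕ × Str) × List ℕ) × ℕ =>
      ((z.1.1.2, z.2), z.1.2.getD z.2 0)) ?_
    refine Primrec.pair (Primrec.pair (Primrec.snd.comp (Primrec.fst.comp Primrec.fst))
      Primrec.snd) ?_
    exact (Primrec.list_getD 0).comp (Primrec.snd.comp Primrec.fst) Primrec.snd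
  · refine (SD_Chk hr hf M N).comp (f := fun z : (ℕ × Str) × List ℕ =>
      ((decode (α := ℕ × ℕ × List ℕ) z.1.1).getD default, z.2)) ?_
    refine Primrec.pair (Primrec.option_getD.comp (Primrec.decode.comp
      (Primrec.fst.comp Primrec.fst)) (Primrec.const default)) Primrec.snd

theorem lfi_of_req {X : ℕ → Bool} (h : ∀ e : Code, Req e X) (hr : Computable relAr)
    (hf : Computable funAr) (M N : CompStr relAr funAr) {f : ℕ → ℕ}
    (hrec : Nat.RecursiveIn {chi X} (f : ℕ →. ℕ)) (hiso : IsIso M N f) :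
    ∃ g : ℕ → ℕ, Computable g ∧ IsIso M N g := by
  obtain ⟨Ψ, hΨ, hm, hval⟩ := exists_functional X hrec
  obtain ⟨e, he⟩ := (SD_Gl hr hf hΨ M N).code
  have hg : ∀ k τ, Goal e k τ ↔ Gl Ψ M N (k, τ) := fun k τ => (he (k, τ)).symm
  obtain ⟨hbij, hrel, hfun⟩ := hiso
  rcases h e with ⟨τ₀, htot⟩ | ⟨τ₀, k, x, hpre, hx, hstuck⟩
  · -- the total case: there is a computable isomorphism
    set xs : ℕ → Str := fun k => (ch (e, τ₀) k).get (htot k) with hxs
    have hmem : ∀ k, xs k ∈ ch (e, τ₀) k := fun k => Part.get_mem (htot k)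
    have hgoal : ∀ k, Gl Ψ M N (k, xs (k + 1)) := fun k =>
      (hg _ _).1 (ch_succ_prefix (hmem k) (hmem (k + 1))).2
    have huniq : ∀ {x y : Str} {n u v : ℕ}, Run (e, τ₀) x → Run (e, τ₀) y → u ∈ Ψ x n →
        v ∈ Ψ y n → u = v := by
      intro x y n u v hx hy hu hv
      rcases run_compat hx hy with h | h
      · exact Part.mem_unique (hm.pfx h hu) hv
      · exact Part.mem_unique hu (hm.pfx h hv)
    have hex : ∀ n, ∃ v, ∃ x, Run (e, τ₀) x ∧ v ∈ Ψ x n := by
      intro n
      obtain ⟨g, h1, h2⟩ := hgoal (encode ((n, 0, []) : ℕ × ℕ × List ℕ))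
      rw [encodek] at h2
      exact ⟨g.getD n 0, xs (encode ((n, 0, []) : ℕ × ℕ × List ℕ) + 1), ⟨_, hmem _⟩,
        h1 n (List.mem_range.2 h2.1)⟩
    choose u hu using hex
    have hu' : ∀ n v, v = u n ↔ ∃ x, Run (e, τ₀) x ∧ v ∈ Ψ x n := by
      intro n v
      constructor
      · rintro rfl; exact hu n
      · rintro ⟨x, hx, hv⟩
        obtain ⟨y, hy, hv'⟩ := hu n
        exact huniq hx hy hv hv'
    have hcomp : Computable u := by
      apply computable_of_graph
      refine (SD.ex (p := fun (z : ℕ × ℕ) (x : Str) => Run (e, τ₀) x ∧ z.2 ∈ Ψ x z.1)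
        (SD.and ?_ ?_)).of_eq (fun z => (hu' z.1 z.2).symm)
      · exact SD_run.comp (f := fun z : (ℕ × ℕ) × Str => ((e, τ₀), z.2))
          (Primrec.pair (Primrec.const _) Primrec.snd)
      · exact (SD.graph hΨ).comp (f := fun z : (ℕ × ℕ) × Str => ((z.2, z.1.1), z.1.2))
          (Primrec.pair (Primrec.pair Primrec.snd (Primrec.fst.comp Primrec.fst))
            (Primrec.snd.comp Primrec.fst))
    have hchk : ∀ x : ℕ × ℕ × List ℕ, ∃ g : List ℕ, (∀ j < g.length, g.getD j 0 = u j) ∧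
        Chk M N x g := by
      intro x
      obtain ⟨g, h1, h2⟩ := hgoal (encode x)
      rw [encodek] at h2
      exact ⟨g, fun j hj => (hu' j _).2 ⟨xs (encode x + 1), ⟨_, hmem _⟩,
        h1 j (List.mem_range.2 hj)⟩, h2⟩
    refine ⟨u, hcomp, ⟨?_, ?_, ?_⟩, ?_, ?_⟩
    · intro n hn
      obtain ⟨g, h1, h2, _, _, h3, _⟩ := hchk (n, 0, [])
      rw [h1 n h2] at h3
      exact h3.resolve_left (fun h => h hn)
    · intro a ha b hb hab
      obtain ⟨g, h1, h2, h3, _, _, _, h4, _⟩ := hchk (b, 0, [a])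
      have h5 := h4 a (by simp)
      have h6 := h3 a (by simp)
      simp only at h5
      rw [h1 a h6, h1 b h2] at h5
      rcases h5 with h5 | h5 | h5 | h5
      · exact absurd ha h5
      · exact absurd hb h5
      · exact absurd hab h5
      · exact h5
    · intro n hn
      obtain ⟨g, h1, h2, _, _, _, h3, _⟩ := hchk (n, 0, [])
      obtain ⟨a, ha, haM, hga⟩ := h3.resolve_left (fun h => h hn)
      rw [h1 a (List.mem_range.1 ha)] at hga
      exact ⟨a, haM, hga⟩
    · intro i l hl hlM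
      obtain ⟨g, h1, _, h3, _, _, _, _, h4, _⟩ := hchk (0, i, l)
      have hmap : (l.map fun a => g.getD a 0) = l.map u :=
        List.map_congr_left fun a ha => h1 a (h3 a ha)
      simp only at h4
      rw [hmap] at h4
      rcases h4 with ⟨v, rfl, hv⟩ | ⟨a, ha, haM⟩ | h4
      · exact absurd hl hv
      · exact absurd (hlM a ha) haM
      · tauto
    · intro i l hl hlM
      obtain ⟨g, h1, _, h3, ⟨v, hv, hvg⟩, _, _, _, _, h4⟩ := hchk (0, i, l)
      have hmap : (l.map fun a => g.getD a 0) = l.map u :=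
        List.map_congr_left fun a ha => h1 a (h3 a ha)
      simp only at h4 hv
      rw [hmap] at h4
      rcases h4 with ⟨v, rfl, hv⟩ | ⟨a, ha, haM⟩ | ⟨w, hw1, hw2, hw3⟩
      · exact absurd hl hv
      · exact absurd (hlM a ha) haM
      · rw [← hv] at hw1
        rw [hw1, h1 v hvg] at hw3
        rw [← hv, hw3, hw2]
  · -- the stuck case contradicts the assumption on `f`
    exfalso
    apply hstuck
    rw [nxt_dom]
    set z : ℕ × ℕ × List ℕ := (decode (α := ℕ × ℕ × List ℕ) k).getD default with hz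
    obtain ⟨a₀, ha₀⟩ : ∃ a₀, z.1 ∈ N.dom → a₀ ∈ M.dom ∧ f a₀ = z.1 := by
      by_cases hn : z.1 ∈ N.dom
      · obtain ⟨a, ha, hfa⟩ := hbij.surjOn hn
        exact ⟨a, fun _ => ⟨ha, hfa⟩⟩
      · exact ⟨0, fun h => absurd h hn⟩
    obtain ⟨m, hm1, hm2, hm3, hm4⟩ : ∃ m, z.1 < m ∧ (∀ a ∈ z.2.2, a < m) ∧
        M.fn z.2.1 z.2.2 < m ∧ a₀ < m := by
      have : ∀ L : List ℕ, ∃ n, ∀ a ∈ L, a < n := by
        intro L
        induction L with
        | nil => exact ⟨0, by simp⟩
        | cons a L ih =>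
          obtain ⟨n, hn⟩ := ih
          refine ⟨max n (a + 1), fun b hb => ?_⟩
          rcases List.mem_cons.1 hb with rfl | hb
          · exact lt_of_lt_of_le (Nat.lt_succ_self _) (le_max_right _ _)
          · exact lt_of_lt_of_le (hn b hb) (le_max_left _ _)
      obtain ⟨n, hn⟩ := this (z.1 :: a₀ :: M.fn z.2.1 z.2.2 :: z.2.2)
      exact ⟨n, hn _ (by simp), fun a ha => hn a (by simp [ha]), hn _ (by simp), hn _ (by simp)⟩
    obtain ⟨K, hK⟩ : ∃ K, ∀ j < m, f j ∈ Ψ (ini X K) j := by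
      clear hm1 hm2 hm3 hm4
      induction m with
      | zero => exact ⟨0, fun j hj => absurd hj (Nat.not_lt_zero _)⟩
      | succ m ih =>
        obtain ⟨K, hK⟩ := ih
        obtain ⟨K', hK'⟩ := (hval m (f m)).1 (Part.mem_some _)
        refine ⟨max K K', fun j hj => ?_⟩
        rcases Nat.lt_succ_iff_lt_or_eq.1 hj with hj | rfl
        · exact mono_ini hm X (le_max_left _ _) (hK j hj)
        · exact mono_ini hm X (le_max_right _ _) hK'
    set y : Str := ini X (max K x.length) with hy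
    refine ⟨y, ?_, ?_⟩
    · have := ini_prefix X (le_max_right K x.length)
      rwa [show ini X x.length = x from hpre] at this
    · rw [hg]
      set g : List ℕ := (List.range m).map f with hgdef
      have hgl : g.length = m := by simp [hgdef]
      have hgd : ∀ j, j < m → g.getD j 0 = f j := by
        intro j hj
        rw [List.getD_eq_getElem _ _ (by rw [hgl]; exact hj)]
        simp [hgdef]
      have hmap : (∀ a ∈ z.2.2, a < m) → (z.2.2.map fun a => g.getD a 0) = z.2.2.map f :=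
        fun hh => List.map_congr_left fun a ha => hgd a (hh a ha)
      refine ⟨g, ?_, ?_⟩
      · intro j hj
        rw [List.mem_range, hgl] at hj
        rw [hgd j hj]
        exact mono_ini hm X (le_max_left _ _) (hK j hj)
      · show Chk M N z g
        unfold Chk
        rw [hgl, hmap hm2]
        refine ⟨hm1, hm2, ⟨_, rfl, hm3⟩, ?_, ?_, ?_, ?_, ?_⟩
        · rw [hgd _ hm1]
          by_cases hn : z.1 ∈ M.dom
          · exact Or.inr (hbij.mapsTo hn)
          · exact Or.inl hn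
        · by_cases hn : z.1 ∈ N.dom
          · refine Or.inr ⟨a₀, List.mem_range.2 hm4, (ha₀ hn).1, ?_⟩
            rw [hgd _ hm4]
            exact (ha₀ hn).2
          · exact Or.inl hn
        · intro a ha
          rw [hgd a (hm2 a ha), hgd _ hm1]
          by_cases h1 : a ∈ M.dom
          · by_cases h2 : z.1 ∈ M.dom
            · by_cases h3 : f a = f z.1
              · exact Or.inr (Or.inr (Or.inr (hbij.injOn h1 h2 h3)))
              · exact Or.inr (Or.inr (Or.inl h3))
            · exact Or.inr (Or.inl h2)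
          · exact Or.inl h1
        · by_cases h1 : z.2.2.length = relAr z.2.1
          · by_cases h2 : ∀ a ∈ z.2.2, a ∈ M.dom
            · have := hrel z.2.1 z.2.2 h1 h2
              tauto
            · push Not at h2
              exact Or.inr (Or.inl h2)
          · exact Or.inl ⟨_, rfl, h1⟩
        · by_cases h1 : z.2.2.length = funAr z.2.1
          · by_cases h2 : ∀ a ∈ z.2.2, a ∈ M.dom
            · refine Or.inr (Or.inr ⟨(M.fn z.2.1 z.2.2, N.fn z.2.1 (z.2.2.map f)), rfl, rfl, ?_⟩)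
              show g.getD (M.fn z.2.1 z.2.2) 0 = _
              rw [hgd _ hm3]
              exact hfun z.2.1 z.2.2 h1 h2
            · push Not at h2
              exact Or.inr (Or.inl h2)
          · exact Or.inl ⟨_, rfl, h1⟩

end Pool.Agent.H36.LFI
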